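import Pool.Agent.Results.MP_917879_lc.AdditiveModNull

set_option autoImplicit false

namespace Pool.Agent.Q24.BD

open Pool.Agent.H685R3 Filter Topology

/-- With the axiom of choice there is a Turing invariant set which is not determined. -/
theorem exists_undetermined :
    ∃ A : Set (ℕ → Bool), TuringInvariant A ∧ ¬ WinsI A ∧ ¬ WinsII A := by
  obtain ⟨ρ, -, -, -, h⟩ := Pool.Agent.Results.MP_917879_lc.AdditiveModNull.result.{0, 0}
  have hcard : Cardinal.mk ℝ = Cardinal.mk (ℕ → Bool) := by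
    rw [Cardinal.mk_real]
    simp
  obtain ⟨κ⟩ := Cardinal.eq.1 hcard
  let U : Ultrafilter ℕ := hyperfilter ℕ
  let φ : (ℕ → ℝ) → ℝ := fun u => limUnder (U : Filter ℕ) u
  have hlim : ∀ u : ℕ → ℝ, Pool.Agent.Results.MP_917879_lc.AdditiveModNull.Bdd u →
      Tendsto u (U : Filter ℕ) (𝓝 (φ u)) := by
    rintro u ⟨C, hC⟩
    have h1 : Set.Icc (-C) C ∈ U.map u := by
      rw [Ultrafilter.mem_map]
      refine Filter.univ_mem' fun n => ?_
      have h2 := hC n
      rw [Real.norm_eq_abs, abs_le] at h2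
      exact h2
    obtain ⟨a, -, ha⟩ := (isCompact_Icc (a := -C) (b := C)).ultrafilter_le_nhds' (U.map u) h1
    exact tendsto_nhds_limUnder ⟨a, ha⟩
  obtain ⟨h1, h2⟩ := h ℝ ℝ κ κ.injective φ
    (fun u v hu hv => by
      have h3 := (hlim u hu).add (hlim v hv)
      obtain ⟨C, hC⟩ := hu
      obtain ⟨D, hD⟩ := hv
      have h4 := hlim (u + v) ⟨C + D, fun n => (norm_add_le _ _).trans (add_le_add (hC n) (hD n))⟩
      exact tendsto_nhds_unique h4 h3)
    (fun u hu => by
      have h3 : Tendsto u (U : Filter ℕ) (𝓝 0) := hu.mono_left Nat.hyperfilter_le_atTop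
      exact h3.limUnder_eq)
  by_contra hcon
  push Not at hcon
  have h3 : φ (fun _ => 1) = 0 := by
    refine h2 (fun v hv i => ?_) _ ⟨1, fun n => by simp⟩
    by_contra h4
    exact h4 (Or.inr (hcon _ (h1 v hv i) fun h5 => h4 (Or.inl h5)))
  have h4 : φ (fun _ => 1) = 1 := tendsto_const_nhds.limUnder_eq
  rw [h4] at h3
  exact one_ne_zero h3

end Pool.Agent.Q24.BD
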