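import Pool.Agent.Q24.BD.Limit

set_option autoImplicit false

namespace Pool.Agent.Q24.BD

open Pool.Agent.H685R3 Pool.Agent.Helper227 Encodable

/-- The program number `e` halts on the input `(L, n, b)`. -/
def HH (e : ℕ) (L : List Bool) (n : ℕ) (b : Bool) : Prop :=
  ((Denumerable.ofNat Nat.Partrec.Code e).eval (encode (L, n, b))).Dom

theorem s1_HH (e : ℕ) : S1 fun y : List Bool × ℕ × Bool => HH e y.1 y.2.1 y.2.2 := by
  refine S1.of_re ?_
  have h1 : Partrec (Denumerable.ofNat Nat.Partrec.Code e).eval :=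
    Partrec.nat_iff.2 (Nat.Partrec.Code.exists_code.2 ⟨_, rfl⟩)
  exact (h1.comp (Computable.encode (α := List Bool × ℕ × Bool))).dom_re

theorem tLe_of_computes {e : ℕ} {x p : ℕ → Bool} (h : Computes e x p) : TLe p x := by
  refine tLe_iff_SI.2 ⟨fun y => ∃ k, k ≤ y.1.length ∧ HH e (y.1.take k) y.2.1 y.2.2, ?_, ?_, ?_⟩
  · refine S1.ex (p := fun (y : List Bool × ℕ × Bool) (k : ℕ) =>
      k ≤ y.1.length ∧ HH e (y.1.take k) y.2.1 y.2.2) (S1.and (S1.of_prim ?_) ?_)
    · exact Primrec.nat_le.comp Primrec.snd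
        (Primrec.list_length.comp (Primrec.fst.comp Primrec.fst))
    · exact (s1_HH e).comp (f := fun y : (List Bool × ℕ × Bool) × ℕ =>
        (y.1.1.take y.2, y.1.2.1, y.1.2.2))
        ((Primrec.list_take.comp Primrec.snd (Primrec.fst.comp Primrec.fst)).pair
          ((Primrec.fst.comp (Primrec.snd.comp Primrec.fst)).pair
            (Primrec.snd.comp (Primrec.snd.comp Primrec.fst))))
  · rintro σ τ a ⟨ρ, rfl⟩ ⟨k, hk, hk'⟩
    refine ⟨k, by simp only [List.length_append]; simp only at hk; omega, ?_⟩
    simp only at hk hk' ⊢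
    rwa [List.take_append_of_le_length hk]
  · rintro ⟨n, b⟩
    refine (h n b).trans ?_
    constructor
    · rintro ⟨k, hk⟩
      refine ⟨k, k, by simp, ?_⟩
      have : (pre x k).take k = hist x k := by
        rw [List.take_of_length_le (by simp)]
        rfl
      simp only
      rw [this]
      exact hk
    · rintro ⟨s, k, hk, hk'⟩
      simp only at hk hk'
      have : (pre x s).take k = hist x k := by
        have h1 : k ≤ s := by simpa using hk
        simp [pre, hist, ← List.map_take, List.take_range, h1]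
      rw [this] at hk'
      exact ⟨k, hk'⟩

open Classical in
/-- The real computed from `x` by the program `e`, if there is one. -/
noncomputable def out (e : ℕ) (x : ℕ → Bool) (n : ℕ) : Bool :=
  decide (∃ k, HH e (hist x k) n true)

/-- The program `e` computes a real from `x`. -/
def good (e : ℕ) : Set (ℕ → Bool) := {x | Computes e x (out e x)}

theorem computes_iff {e : ℕ} {x p : ℕ → Bool} : Computes e x p ↔ x ∈ good e ∧ p = out e x := by
  classical
  constructor
  · intro h
    have h1 : p = out e x := by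
      funext n
      have h2 : p n = true ↔ ∃ k, HH e (hist x k) n true := h n true
      unfold out
      by_cases h3 : ∃ k, HH e (hist x k) n true
      · rw [decide_eq_true h3]
        exact h2.2 h3
      · rw [decide_eq_false h3]
        exact Bool.eq_false_iff.2 fun h4 => h3 (h2.1 h4)
    refine ⟨?_, h1⟩
    change Computes e x (out e x)
    rwa [← h1]
  · rintro ⟨h, rfl⟩
    exact h

theorem meas_HH (e n : ℕ) (b : Bool) : MeasurableSet {x : ℕ → Bool | ∃ k, HH e (hist x k) n b} := by
  have : {x : ℕ → Bool | ∃ k, HH e (hist x k) n b} = ⋃ k, {x | HH e (hist x k) n b} := by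
    ext x
    simp
  rw [this]
  refine MeasurableSet.iUnion fun k => (closed_of_det k fun z z' h hz => ?_).measurableSet
  change HH e (hist z' k) n b
  rw [← hist_congr h]
  exact hz

theorem measurable_out (e : ℕ) : Measurable (out e) := by
  refine measurable_pi_iff.2 fun n => measurable_to_bool ?_
  have : (fun x => out e x n) ⁻¹' {true} = {x : ℕ → Bool | ∃ k, HH e (hist x k) n true} := by
    ext x
    simp [out]
  rw [this]
  exact meas_HH e n true

theorem meas_good (e : ℕ) : MeasurableSet (good e) := by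
  have : good e = ⋂ n, ⋂ b, (((fun x => out e x n) ⁻¹' {b} ∩ {x | ∃ k, HH e (hist x k) n b}) ∪
      (((fun x => out e x n) ⁻¹' {b})ᶜ ∩ {x | ∃ k, HH e (hist x k) n b}ᶜ)) := by
    ext x
    simp only [Set.mem_iInter, Set.mem_union, Set.mem_inter_iff, Set.mem_compl_iff,
      Set.mem_preimage, Set.mem_singleton_iff, Set.mem_ofPred_eq]
    refine forall_congr' fun n => forall_congr' fun b => ?_
    change (out e x n = b ↔ ∃ k, HH e (hist x k) n b) ↔ _
    tauto
  rw [this]
  refine MeasurableSet.iInter fun n => MeasurableSet.iInter fun b => ?_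
  have h1 : MeasurableSet ((fun x => out e x n) ⁻¹' {b}) :=
    (measurable_pi_iff.1 (measurable_out e) n) (measurableSet_singleton b)
  exact (h1.inter (meas_HH e n b)).union (h1.compl.inter (meas_HH e n b).compl)

theorem meas_moveIs (i m : ℕ) (b : Bool) : MeasurableSet {p : ℕ → Bool | MoveIs p i m b} := by
  classical
  have : {p : ℕ → Bool | MoveIs p i m b} =
      ⋃ t, {p | Moves p i t ∧ Nat.count (Moves p i) t = m ∧ p (4 * t + 3) = b} := by
    ext p
    simp only [MoveIs, Set.mem_iUnion, Set.mem_ofPred_eq]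
  rw [this]
  refine MeasurableSet.iUnion fun t => (closed_of_det (4 * t + 4) fun z z' h hz => ?_).measurableSet
  have h1 : ∀ t' ≤ t, Moves z i t' ↔ Moves z' i t' := by
    intro t' ht'
    unfold Moves
    rw [h _ (by omega)]
  obtain ⟨h2, h3, h4⟩ := hz
  refine ⟨(h1 t le_rfl).1 h2, ?_, ?_⟩
  · rw [← h3]
    exact (count_congr fun t' ht' => h1 t' ht'.le).symm
  · rw [← h _ (by omega)]
    exact h4

theorem meas_has (i m : ℕ) : MeasurableSet {p : ℕ → Bool | Has p i m} := by
  have : {p : ℕ → Bool | Has p i m} = ⋃ b, {p | MoveIs p i m b} := by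
    ext p
    simp only [Set.mem_iUnion, Set.mem_ofPred_eq, has_iff]
  rw [this]
  exact MeasurableSet.iUnion fun b => meas_moveIs i m b

open Classical in
/-- A Borel version of `tape`. -/
noncomputable def tape' (i : ℕ) (p : ℕ → Bool) (m : ℕ) : Bool := decide (MoveIs p i m true)

theorem measurable_tape' (i : ℕ) : Measurable (tape' i) := by
  refine measurable_pi_iff.2 fun m => measurable_to_bool ?_
  have : (fun x => tape' i x m) ⁻¹' {true} = {p : ℕ → Bool | MoveIs p i m true} := by
    ext x
    simp [tape']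
  rw [this]
  exact meas_moveIs i m true

theorem tape'_eq {p : ℕ → Bool} {i : ℕ} (h : ∀ m, Has p i m) : tape' i p = tape p i := by
  classical
  funext m
  obtain ⟨b, hb⟩ := has_iff.1 (h m)
  rw [hb.tape]
  unfold tape'
  by_cases h1 : MoveIs p i m true
  · rw [decide_eq_true h1, ← h1.tape, hb.tape]
  · rw [decide_eq_false h1]
    cases b with
    | false => rfl
    | true => exact absurd hb h1

/-- The program `a.1` computes from `x` a real of the same degree, and `a.2` computes `x` from
it. -/
def Deg (a : ℕ) : Set (ℕ → Bool) :=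
  {x | x ∈ good a.unpair.1 ∧ out a.unpair.1 x ∈ good a.unpair.2 ∧
    out a.unpair.2 (out a.unpair.1 x) = x}

theorem meas_deg (a : ℕ) : MeasurableSet (Deg a) :=
  (meas_good _).inter (((meas_good _).preimage (measurable_out _)).inter
    (measurableSet_eq_fun ((measurable_out _).comp (measurable_out _)) measurable_id))

theorem mem_deg {a : ℕ} {x : ℕ → Bool} (h : x ∈ Deg a) : SameDegree (out a.unpair.1 x) x :=
  ⟨tLe_of_computes (e := a.unpair.1) (computes_iff.2 ⟨h.1, rfl⟩),
    tLe_of_computes (e := a.unpair.2) (computes_iff.2 ⟨h.2.1, h.2.2.symm⟩)⟩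

theorem exists_deg {p x : ℕ → Bool} (h : SameDegree p x) :
    ∃ a, x ∈ Deg a ∧ out a.unpair.1 x = p := by
  obtain ⟨e, he⟩ := computes_of_tLe h.1
  obtain ⟨e', he'⟩ := computes_of_tLe h.2
  have h1 := computes_iff.1 he
  have h2 := computes_iff.1 he'
  refine ⟨Nat.pair e e', ?_, ?_⟩
  · simp only [Deg, Nat.unpair_pair, Set.mem_ofPred_eq]
    refine ⟨h1.1, ?_, ?_⟩
    · rw [← h1.2]
      exact h2.1
    · rw [← h1.2, ← h2.2]
  · simp only [Nat.unpair_pair]
    exact h1.2.symm

theorem meas_link (i e c : ℕ) : MeasurableSet {x : ℕ → Bool | Link i (out e x) (out c x)} := by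
  have : {x : ℕ → Bool | Link i (out e x) (out c x)} =
      (out e ⁻¹' good i.unpair.1 ∩ {x | out c x = out i.unpair.1 (out e x)}) ∩
      (out c ⁻¹' good i.unpair.2 ∩ {x | out e x = out i.unpair.2 (out c x)}) := by
    ext x
    simp only [Link, computes_iff, Set.mem_ofPred_eq, Set.mem_inter_iff, Set.mem_preimage]
  rw [this]
  exact (((meas_good _).preimage (measurable_out _)).inter
    (measurableSet_eq_fun (measurable_out _) ((measurable_out _).comp (measurable_out _)))).inter
    (((meas_good _).preimage (measurable_out _)).inter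
    (measurableSet_eq_fun (measurable_out _) ((measurable_out _).comp (measurable_out _))))

/-- Player I has no further move when it is his turn. -/
def Stall (i e c : ℕ) : Set (ℕ → Bool) :=
  {x | ∃ m, ¬ Has (out e x) i m ∧ ∀ j < m, Has (out e x) i j ∧ Has (out c x) i j}

theorem meas_has' (i e m : ℕ) : MeasurableSet {x : ℕ → Bool | Has (out e x) i m} :=
  (meas_has i m).preimage (measurable_out e)

theorem meas_stall (i e c : ℕ) : MeasurableSet (Stall i e c) := by
  have : Stall i e c = ⋃ m, ({x | Has (out e x) i m}ᶜ ∩ ⋂ j, ⋂ (_ : j < m),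
      ({x | Has (out e x) i j} ∩ {x | Has (out c x) i j})) := by
    ext x
    simp only [Stall, Set.mem_ofPred_eq, Set.mem_iUnion, Set.mem_inter_iff, Set.mem_compl_iff,
      Set.mem_iInter]
  rw [this]
  exact MeasurableSet.iUnion fun m => (meas_has' i e m).compl.inter (MeasurableSet.iInter fun j =>
    MeasurableSet.iInter fun _ => (meas_has' i e j).inter (meas_has' i c j))

/-- The board is played to the end. -/
def Ended (i e c : ℕ) : Set (ℕ → Bool) :=
  {x | ∀ m, Has (out e x) i m ∧ Has (out c x) i m}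

theorem meas_ended (i e c : ℕ) : MeasurableSet (Ended i e c) := by
  have : Ended i e c = ⋂ m, ({x | Has (out e x) i m} ∩ {x | Has (out c x) i m}) := by
    ext x
    simp only [Ended, Set.mem_ofPred_eq, Set.mem_inter_iff, Set.mem_iInter]
  rw [this]
  exact MeasurableSet.iInter fun m => (meas_has' i e m).inter (meas_has' i c m)

theorem measurable_weave {f g : (ℕ → Bool) → ℕ → Bool} (hf : Measurable f) (hg : Measurable g) :
    Measurable fun x => weave (f x) (g x) := by
  refine measurable_pi_iff.2 fun n => ?_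
  unfold weave
  split_ifs
  · exact measurable_pi_iff.1 hf _
  · exact measurable_pi_iff.1 hg _

/-- **The operation `star` is Borel**: `star A` is obtained from preimages of `A` under Borel maps
and Borel sets, which do not depend on `A`, by a countable union of countable intersections. -/
theorem star_form : ∃ (C D : ℕ → ℕ → Set (ℕ → Bool)) (F : ℕ → ℕ → (ℕ → Bool) → ℕ → Bool),
    (∀ a b, MeasurableSet (C a b) ∧ MeasurableSet (D a b) ∧ Measurable (F a b)) ∧
    ∀ A, star A = ⋃ a, ⋂ b, (C a b ∪ (D a b ∩ F a b ⁻¹' A)) := by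
  refine ⟨fun a b => Deg a ∩ ((Deg b.unpair.1 ∩
      {x | Link b.unpair.2 (out a.unpair.1 x) (out b.unpair.1.unpair.1 x)})ᶜ ∪
      ((Stall b.unpair.2 a.unpair.1 b.unpair.1.unpair.1)ᶜ ∩
        (Ended b.unpair.2 a.unpair.1 b.unpair.1.unpair.1)ᶜ)),
    fun a b => Deg a ∩ ((Stall b.unpair.2 a.unpair.1 b.unpair.1.unpair.1)ᶜ ∩
      Ended b.unpair.2 a.unpair.1 b.unpair.1.unpair.1),
    fun a b x => weave (tape' b.unpair.2 (out a.unpair.1 x))
      (tape' b.unpair.2 (out b.unpair.1.unpair.1 x)), fun a b => ⟨?_, ?_, ?_⟩, fun A => ?_⟩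
  · exact (meas_deg a).inter (((meas_deg _).inter (meas_link _ _ _)).compl.union
      ((meas_stall _ _ _).compl.inter (meas_ended _ _ _).compl))
  · exact (meas_deg a).inter ((meas_stall _ _ _).compl.inter (meas_ended _ _ _))
  · exact measurable_weave ((measurable_tape' _).comp (measurable_out _))
      ((measurable_tape' _).comp (measurable_out _))
  ext x
  simp only [Set.mem_iUnion, Set.mem_iInter, Set.mem_union, Set.mem_inter_iff, Set.mem_compl_iff,
    Set.mem_preimage, Set.mem_ofPred_eq]
  constructor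
  · rintro ⟨p, hp, hall⟩
    obtain ⟨a, ha, rfl⟩ := exists_deg hp
    refine ⟨a, fun b => ?_⟩
    by_cases h1 : x ∈ Deg b.unpair.1 ∧
        Link b.unpair.2 (out a.unpair.1 x) (out b.unpair.1.unpair.1 x)
    swap
    · exact Or.inl ⟨ha, Or.inl h1⟩
    have h2 := hall _ (mem_deg h1.1) _ h1.2
    unfold Loses at h2
    rw [not_or, not_and_or, not_not] at h2
    by_cases h3 : x ∈ Ended b.unpair.2 a.unpair.1 b.unpair.1.unpair.1
    · refine Or.inr ⟨⟨ha, h2.1, h3⟩, ?_⟩
      rw [tape'_eq fun m => (h3 m).1, tape'_eq fun m => (h3 m).2]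
      exact h2.2.resolve_left fun h => h h3
    · exact Or.inl ⟨ha, Or.inr ⟨h2.1, h3⟩⟩
  · rintro ⟨a, hall⟩
    have ha : x ∈ Deg a := by
      rcases hall 0 with h | h
      · exact h.1
      · exact h.1.1
    refine ⟨out a.unpair.1 x, mem_deg ha, fun q hq i hi hL => ?_⟩
    obtain ⟨c, hc, rfl⟩ := exists_deg hq
    have h1 := hall (Nat.pair c i)
    simp only [Nat.unpair_pair] at h1
    rcases h1 with ⟨-, h1⟩ | ⟨⟨-, h2, h3⟩, h4⟩
    · rcases h1 with h1 | ⟨h2, h3⟩
      · exact h1 ⟨hc, hi⟩
      · rcases hL with h5 | h5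
        · exact h2 h5
        · exact h3 h5.1
    · rcases hL with h5 | h5
      · exact h2 h5
      · rw [tape'_eq fun m => (h3 m).1, tape'_eq fun m => (h3 m).2] at h4
        exact h5.2 h4

end Pool.Agent.Q24.BD
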