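import Pool.Agent.H685R3.KDefs

/-!
# Infinitely many boards: definitions

The games, `hist`, `WinsI`, `WinsII` and `TuringInvariant` are those of the starting files.
-/

set_option autoImplicit false

namespace Pool.Agent.Q24.BD

open Pool.Agent.H685R3

/-- `x` and `y` have the same Turing degree (Mathlib's Turing reducibility, for characteristic
functions). -/
def SameDegree (x y : ℕ → Bool) : Prop :=
  TuringReducible (charFn x) (charFn y) ∧ TuringReducible (charFn y) (charFn x)

/-- The play `a 0, b 0, a 1, b 1, ...`. -/
def weave (a b : ℕ → Bool) (n : ℕ) : Bool := if n % 2 = 0 then a (n / 2) else b (n / 2)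

/-- The board named by the strategy `s` at the time `t`, when `v` is the sequence of the moves of
the opponent. -/
def board (s : List Bool → ℕ × Bool) (v : ℕ → Bool) (t : ℕ) : ℕ := (s (hist v t)).1

/-- The move made by the strategy `s` at the time `t`. -/
def move (s : List Bool → ℕ × Bool) (v : ℕ → Bool) (t : ℕ) : Bool := (s (hist v t)).2

/-- The time at which the board `k` is named for the `m`-th time (`m = 0, 1, ...`). -/
noncomputable def visit (s : List Bool → ℕ × Bool) (v : ℕ → Bool) (k m : ℕ) : ℕ :=
  Nat.nth (fun t => board s v t = k) m

/-- Player I can win one of infinitely many boards. On every board the game with payoff set `A` is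
played. At every time `t` player I names a board and makes his next move there, and player II
answers on this board by `v t`. For every `v` there is a board which is named infinitely often, and
on which the play is in `A`. -/
def BoardsI (A : Set (ℕ → Bool)) : Prop :=
  ∃ s : List Bool → ℕ × Bool, ∀ v : ℕ → Bool, ∃ k, {t | board s v t = k}.Infinite ∧
    weave (fun m => move s v (visit s v k m)) (fun m => v (visit s v k m)) ∈ A

/-- Player II can win one of infinitely many boards. At every time `t` he names a board and answers
there to the last move of player I on this board (if the board is named for the first time, there is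
no such move, and the answer is not used); then player I makes his next move `v t` on this board.
For every `v` there is a board which is named infinitely often, and on which the play is not in
`A`. -/
def BoardsII (A : Set (ℕ → Bool)) : Prop :=
  ∃ s : List Bool → ℕ × Bool, ∀ v : ℕ → Bool, ∃ k, {t | board s v t = k}.Infinite ∧
    weave (fun m => v (visit s v k m)) (fun m => move s v (visit s v k (m + 1))) ∉ A

/-- The program number `e` computes `q` from `p`: it halts on `(p 0, ..., p (k - 1))`, `n`, `b` for
some `k` if and only if `q n = b`. -/
def Computes (e : ℕ) (p q : ℕ → Bool) : Prop :=
  ∀ n b, q n = b ↔ ∃ k, ((Denumerable.ofNat Nat.Partrec.Code e).eval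
    (Encodable.encode (hist p k, n, b))).Dom

/-- The number `i` codes a program which computes `q` from `p` and one which computes `p` from
`q`. -/
def Link (i : ℕ) (p q : ℕ → Bool) : Prop :=
  Computes i.unpair.1 p q ∧ Computes i.unpair.2 q p

/-- According to the record `p` a move is made on the board `i` at the time `t`. The times for the
board `i` are those `t` which code a pair with the first component `i`. -/
def Moves (p : ℕ → Bool) (i t : ℕ) : Prop := t.unpair.1 = i ∧ p (4 * t + 1) = true

open Classical in
/-- The record `p` contains more than `m` moves on the board `i`. -/
def Has (p : ℕ → Bool) (i m : ℕ) : Prop := ∃ t, Moves p i t ∧ Nat.count (Moves p i) t = m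

/-- The sequence of the moves on the board `i` in the record `p`. -/
noncomputable def tape (p : ℕ → Bool) (i m : ℕ) : Bool := p (4 * Nat.nth (Moves p i) m + 3)

/-- Player I, whose moves are recorded in `p`, loses the board `i` against player II, whose moves
are recorded in `q`: he has no further move when it is his turn, or the board is played to the end
and the play is not in `A`. -/
def Loses (A : Set (ℕ → Bool)) (p q : ℕ → Bool) (i : ℕ) : Prop :=
  (∃ m, ¬ Has p i m ∧ ∀ j < m, Has p i j ∧ Has q i j) ∨
    ((∀ m, Has p i m ∧ Has q i m) ∧ weave (tape p i) (tape q i) ∉ A)

/-- The Turing invariant set attached to a payoff set `A`: all `x` such that some `p` of the same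
degree does not lose against any `q` of the same degree on any board `i` which links `p` and `q`. -/
def star (A : Set (ℕ → Bool)) : Set (ℕ → Bool) :=
  {x | ∃ p, SameDegree p x ∧ ∀ q, SameDegree q x → ∀ i, Link i p q → ¬ Loses A p q i}

end Pool.Agent.Q24.BD
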