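import Pool.Agent.Q24.BD.Inv

set_option autoImplicit false

namespace Pool.Agent.Q24.BD

open Pool.Agent.H685R3

/-- The earlier visits to the board of the time `t` do not depend on the later moves. -/
theorem visit_congr {s : List Bool → ℕ × Bool} {v v' : ℕ → Bool} {t j : ℕ}
    (h : ∀ i < t, v i = v' i) (hj : j ≤ age s v t) :
    visit s v (board s v t) j ≤ t ∧ (j < age s v t → visit s v (board s v t) j < t) ∧
      visit s v' (board s v t) j = visit s v (board s v t) j := by
  generalize hk : board s v t = k
  have hc : Nat.count (fun i => board s v i = k) t = age s v t := by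
    rw [age, hk]
  have h0 : Nat.count (fun i => board s v i = k) (t + 1) = age s v t + 1 := by
    rw [Nat.count_succ, hc, if_pos hk]
  have h1 : visit s v k j < t + 1 := Nat.nth_lt_of_lt_count (by rw [h0]; omega)
  have h2 : board s v (visit s v k j) = k ∧
      Nat.count (fun i => board s v i = k) (visit s v k j) = j := by
    have h3 : ∀ hf : (Set.ofPred fun i => board s v i = k).Finite, j < hf.toFinset.card := by
      intro hf
      have h4 := Nat.count_le_card hf (t + 1)
      rw [h0] at h4
      omega
    exact ⟨Nat.nth_mem j h3, Nat.count_nth h3⟩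
  refine ⟨by omega, fun hlt => ?_, ?_⟩
  · rcases Nat.lt_or_ge (visit s v k j) t with h3 | h3
    · exact h3
    · have h4 : visit s v k j = t := by omega
      rw [h4, hc] at h2
      omega
  · have h3 : ∀ i ≤ t, board s v' i = board s v i := fun i hi =>
      (board_congr fun l hl => (h l (by omega))).symm
    have h4 : board s v' (visit s v k j) = k := by rw [h3 _ (by omega), h2.1]
    have h5 : Nat.count (fun i => board s v' i = k) (visit s v k j) = j := by
      refine (countp_congr (Q := fun i => board s v i = k) fun i hi => ?_).trans h2.2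
      rw [h3 i (by omega)]
    have h6 := Nat.nth_count (p := fun i => board s v' i = k) h4
    rw [h5] at h6
    exact h6

/-- The play on the board `k`, if the opponent is player II. -/
noncomputable def onI (s : List Bool → ℕ × Bool) (v : ℕ → Bool) (k : ℕ) : ℕ → Bool :=
  weave (fun m => move s v (visit s v k m)) (fun m => v (visit s v k m))

/-- The play on the board `k`, if the opponent is player I. -/
noncomputable def onII (s : List Bool → ℕ × Bool) (v : ℕ → Bool) (k : ℕ) : ℕ → Bool :=
  weave (fun m => v (visit s v k m)) (fun m => move s v (visit s v k (m + 1)))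

theorem not_boardsI {A : Set (ℕ → Bool)} (h : WinsII A) : ¬ BoardsI A := by
  rintro ⟨s, hs⟩
  obtain ⟨τ, hτ⟩ := h
  obtain ⟨v, hv⟩ := exists_seq (fun v t => τ (hist (onI s v (board s v t)) (2 * age s v t + 1)))
    fun v v' t h => by
      rw [← age_congr h, ← board_congr h]
      congr 1
      refine hist_congr fun n hn => ?_
      obtain ⟨h1, h2, h3⟩ := visit_congr (s := s) (j := n / 2) h (by omega)
      unfold onI weave
      beta_reduce
      rw [h3]
      split_ifs with h4
      · exact move_congr fun i hi => h i (by omega)
      · exact h _ (h2 (by omega))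
  obtain ⟨k, hinf, hk⟩ := hs v
  refine hτ (onI s v k) (fun n => ?_) hk
  conv_lhs => rw [onI, weave_odd, hv]
  rw [age_visit hinf, visit_mem hinf]

theorem not_boardsII {A : Set (ℕ → Bool)} (h : WinsI A) : ¬ BoardsII A := by
  rintro ⟨s, hs⟩
  obtain ⟨τ, hτ⟩ := h
  obtain ⟨v, hv⟩ := exists_seq (fun v t => τ (hist (onII s v (board s v t)) (2 * age s v t)))
    fun v v' t h => by
      rw [← age_congr h, ← board_congr h]
      congr 1
      refine hist_congr fun n hn => ?_
      obtain ⟨h1, h2, h3⟩ := visit_congr (s := s) (j := n / 2) h (by omega)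
      unfold onII weave
      beta_reduce
      split_ifs with h4
      · rw [h3]
        exact h _ (h2 (by omega))
      · obtain ⟨h5, h6, h7⟩ := visit_congr (s := s) (j := n / 2 + 1) h (by omega)
        rw [h7]
        exact move_congr fun i hi => h i (by omega)
  obtain ⟨k, hinf, hk⟩ := hs v
  refine hk (hτ (onII s v k) fun n => ?_)
  conv_lhs => rw [onII, weave_even, hv]
  rw [age_visit hinf, visit_mem hinf]

theorem nth_true (m : ℕ) {P : ℕ → Prop} (h : ∀ t, P t) : Nat.nth P m = m := by
  have : P = fun _ => True := funext fun t => propext ⟨fun _ => trivial, fun _ => h t⟩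
  rw [this]
  exact Nat.nth_true m

theorem hist_weave_succ (a b : ℕ → Bool) (n : ℕ) :
    hist (weave a b) (2 * (n + 1)) = hist (weave a b) (2 * n) ++ [a n, b n] := by
  have h1 : 2 * (n + 1) = 2 * n + 1 + 1 := by ring
  rw [h1]
  simp only [hist, List.range_succ, List.map_append, List.map_cons, List.map_nil,
    weave_even, weave_odd, List.append_assoc, List.cons_append, List.nil_append]

theorem boardsI_of_winsI {A : Set (ℕ → Bool)} (h : WinsI A) : BoardsI A := by
  obtain ⟨σ, hσ⟩ := h
  let P : (ℕ → Bool) → ℕ → List Bool := fun v n => Nat.rec [] (fun n L => L ++ [σ L, v n]) n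
  have hP : ∀ v n, P v (n + 1) = P v n ++ [σ (P v n), v n] := fun v n => rfl
  have hPc : ∀ v v' n, (∀ i < n, v i = v' i) → P v n = P v' n := by
    intro v v' n
    induction n with
    | zero => intro _; rfl
    | succ n ih =>
      intro h
      rw [hP, hP, ih fun i hi => h i (by omega), h n (by omega)]
  let s : List Bool → ℕ × Bool := fun L => (0, σ (P (fun n => L.getD n false) L.length))
  have hs : ∀ v t, s (hist v t) = (0, σ (P v t)) := by
    intro v t
    simp only [s, hist_length]
    rw [hPc _ v t fun i hi => hist_getD hi]
  refine ⟨s, fun v => ⟨0, ?_, ?_⟩⟩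
  · have : {t | board s v t = 0} = Set.univ := Set.eq_univ_of_forall fun t => by
      change board s v t = 0
      rw [board, hs]
    rw [this]
    exact Set.infinite_univ
  · have hvis : ∀ m, visit s v 0 m = m := fun m => nth_true m fun t => by rw [board, hs]
    have e1 : (fun m => move s v (visit s v 0 m)) = fun m => σ (P v m) := by
      funext m
      rw [hvis, move, hs]
    have e2 : (fun m => v (visit s v 0 m)) = v := by
      funext m
      rw [hvis]
    rw [e1, e2]
    refine hσ _ fun n => ?_
    rw [weave_even]
    congr 1
    induction n with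
    | zero => rfl
    | succ n ih => rw [hist_weave_succ, ← ih, hP]

theorem boardsII_of_winsII {A : Set (ℕ → Bool)} (h : WinsII A) : BoardsII A := by
  obtain ⟨σ, hσ⟩ := h
  let P : (ℕ → Bool) → ℕ → List Bool := fun v n =>
    Nat.rec [] (fun n L => L ++ [v n, σ (L ++ [v n])]) n
  have hP : ∀ v n, P v (n + 1) = P v n ++ [v n, σ (P v n ++ [v n])] := fun v n => rfl
  have hPc : ∀ v v' n, (∀ i < n, v i = v' i) → P v n = P v' n := by
    intro v v' n
    induction n with
    | zero => intro _; rfl
    | succ n ih =>
      intro h
      rw [hP, hP, ih fun i hi => h i (by omega), h n (by omega)]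
  let s : List Bool → ℕ × Bool := fun L =>
    (0, σ (P (fun n => L.getD n false) (L.length - 1) ++ [L.getD (L.length - 1) false]))
  have hs : ∀ v t, s (hist v (t + 1)) = (0, σ (P v t ++ [v t])) := by
    intro v t
    simp only [s, hist_length, Nat.add_sub_cancel]
    rw [hPc _ v t fun i hi => hist_getD (by omega), hist_getD (by omega)]
  refine ⟨s, fun v => ⟨0, ?_, ?_⟩⟩
  · have : {t | board s v t = 0} = Set.univ := Set.eq_univ_of_forall fun t => rfl
    rw [this]
    exact Set.infinite_univ
  · have hvis : ∀ m, visit s v 0 m = m := fun m => nth_true m fun t => rfl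
    have e1 : (fun m => move s v (visit s v 0 (m + 1))) = fun m => σ (P v m ++ [v m]) := by
      funext m
      rw [hvis, move, hs]
    have e2 : (fun m => v (visit s v 0 m)) = v := by
      funext m
      rw [hvis]
    rw [e1, e2]
    refine hσ _ fun n => ?_
    rw [weave_odd]
    congr 1
    have h1 : P v n = hist (weave v fun m => σ (P v m ++ [v m])) (2 * n) := by
      induction n with
      | zero => rfl
      | succ n ih => rw [hist_weave_succ, ← ih, hP]
    rw [h1]
    simp [hist, List.range_succ, weave_even]

end Pool.Agent.Q24.BD
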