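import Pool.Agent.Q24.BD.Limit2
import Pool.Agent.Q24.BD.AC

set_option autoImplicit false

namespace Pool.Agent.Q24.BD

open Pool.Agent.H685R3 Filter

/-- Player II can win one of infinitely many boards, and he can name it in the limit. -/
def LimitII (A : Set (ℕ → Bool)) : Prop :=
  ∃ (s : List Bool → ℕ × Bool) (g : List Bool → ℕ), ∀ v : ℕ → Bool, ∃ k,
    (∀ᶠ t in atTop, g (hist v t) = k) ∧ {t | board s v t = k}.Infinite ∧
    weave (fun m => v (visit s v k m)) (fun m => move s v (visit s v k (m + 1))) ∉ A

/-- The game with exchanged roles: the first move is a dummy move. -/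
def dual (A : Set (ℕ → Bool)) : Set (ℕ → Bool) := {x | (fun n => x (n + 1)) ∉ A}

theorem hist_cons (x : ℕ → Bool) (n : ℕ) :
    hist x (n + 1) = x 0 :: hist (fun n => x (n + 1)) n := by
  simp only [hist, List.range_succ_eq_map, List.map_cons, List.map_map]
  rfl

theorem winsI_dual {A : Set (ℕ → Bool)} : WinsI (dual A) ↔ WinsII A := by
  constructor
  · rintro ⟨s, hs⟩
    refine ⟨fun L => s (s [] :: L), fun y hy => ?_⟩
    have h1 := hs (fun n => Nat.casesOn n (s []) y) fun n => ?_
    · exact h1
    cases n with
    | zero => rfl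
    | succ n =>
      have e : 2 * (n + 1) = 2 * n + 1 + 1 := by ring
      rw [e, hist_cons]
      exact hy n
  · rintro ⟨τ, hτ⟩
    refine ⟨fun L => τ L.tail, fun x hx => hτ _ fun n => ?_⟩
    have h1 := hx (n + 1)
    have e : 2 * (n + 1) = 2 * n + 1 + 1 := by ring
    rw [e, hist_cons] at h1
    exact h1

theorem weave_succ (a b : ℕ → Bool) :
    (fun n => weave a b (n + 1)) = weave b fun m => a (m + 1) := by
  funext n
  rcases Nat.even_or_odd' n with ⟨m, rfl | rfl⟩
  · rw [weave_odd, weave_even]
  · have e : 2 * m + 1 + 1 = 2 * (m + 1) := by ring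
    rw [e, weave_odd, weave_even]

theorem mem_dual {A : Set (ℕ → Bool)} (s : List Bool → ℕ × Bool) (v : ℕ → Bool) (k : ℕ) :
    weave (fun m => move s v (visit s v k m)) (fun m => v (visit s v k m)) ∈ dual A ↔
      weave (fun m => v (visit s v k m)) (fun m => move s v (visit s v k (m + 1))) ∉ A := by
  have h := weave_succ (fun m => move s v (visit s v k m)) (fun m => v (visit s v k m))
  rw [← h]
  rfl

theorem boardsI_dual {A : Set (ℕ → Bool)} : BoardsI (dual A) ↔ BoardsII A :=
  exists_congr fun s => forall_congr' fun v => exists_congr fun k =>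
    and_congr Iff.rfl (mem_dual s v k)

theorem limitI_dual {A : Set (ℕ → Bool)} : LimitI (dual A) ↔ LimitII A :=
  exists_congr fun s => exists_congr fun _ => forall_congr' fun v => exists_congr fun k =>
    and_congr Iff.rfl (and_congr Iff.rfl (mem_dual s v k))

/-- One board is enough for a player with a winning strategy. -/
theorem exists_zero {A : Set (ℕ → Bool)} (h : WinsI A) :
    ∃ s : List Bool → ℕ × Bool, ∀ v : ℕ → Bool, (∀ t, board s v t = 0) ∧
      weave (fun m => move s v (visit s v 0 m)) (fun m => v (visit s v 0 m)) ∈ A := by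
  obtain ⟨σ, hσ⟩ := h
  let P : (ℕ → Bool) → ℕ → List Bool := fun v n => Nat.rec [] (fun n L => L ++ [σ L, v n]) n
  have hP : ∀ v n, P v (n + 1) = P v n ++ [σ (P v n), v n] := fun v n => rfl
  have hPc : ∀ v v' n, (∀ i < n, v i = v' i) → P v n = P v' n := by
    intro v v' n
    induction n with
    | zero => intro _; rfl
    | succ n ih =>
      intro h
      rw [hP, hP, ih fun i hi => h i (by omega), h n (by omega)]
  let s : List Bool → ℕ × Bool := fun L => (0, σ (P (fun n => L.getD n false) L.length))
  have hs : ∀ v t, s (hist v t) = (0, σ (P v t)) := by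
    intro v t
    simp only [s, hist_length]
    rw [hPc _ v t fun i hi => hist_getD hi]
  refine ⟨s, fun v => ⟨fun t => by rw [board, hs], ?_⟩⟩
  · have hvis : ∀ m, visit s v 0 m = m := fun m => nth_true m fun t => by rw [board, hs]
    have e1 : (fun m => move s v (visit s v 0 m)) = fun m => σ (P v m) := by
      funext m
      rw [hvis, move, hs]
    have e2 : (fun m => v (visit s v 0 m)) = v := by
      funext m
      rw [hvis]
    rw [e1, e2]
    refine hσ _ fun n => ?_
    rw [weave_even]
    congr 1
    induction n with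
    | zero => rfl
    | succ n ih => rw [hist_weave_succ, ← ih, hP]

theorem limitI_of_winsI {A : Set (ℕ → Bool)} (h : WinsI A) : LimitI A := by
  obtain ⟨s, hs⟩ := exists_zero h
  refine ⟨s, fun _ => 0, fun v => ⟨0, Eventually.of_forall fun _ => rfl, ?_, (hs v).2⟩⟩
  have : {t | board s v t = 0} = Set.univ := Set.eq_univ_of_forall fun t => (hs v).1 t
  rw [this]
  exact Set.infinite_univ

theorem boardsI_of_limitI {A : Set (ℕ → Bool)} (h : LimitI A) : BoardsI A := by
  obtain ⟨s, g, h⟩ := h
  refine ⟨s, fun v => ?_⟩
  obtain ⟨k, -, h1⟩ := h v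
  exact ⟨k, h1⟩

theorem limitI_iff {A : Set (ℕ → Bool)} : LimitI A ↔ WinsI A :=
  ⟨winsI_of_limitI, limitI_of_winsI⟩

theorem limitII_iff {A : Set (ℕ → Bool)} : LimitII A ↔ WinsII A := by
  rw [← limitI_dual, limitI_iff, winsI_dual]

theorem boardsI_iff {A : Set (ℕ → Bool)} (hA : TuringInvariant A) : BoardsI A ↔ WinsI A :=
  ⟨winsI_of_boardsI hA, fun h => boardsI_of_limitI (limitI_of_winsI h)⟩

theorem boardsII_iff {A : Set (ℕ → Bool)} (hA : TuringInvariant A) : BoardsII A ↔ WinsII A :=
  ⟨winsII_of_boardsII hA, fun h =>
    boardsI_dual.1 (boardsI_of_limitI (limitI_of_winsI (winsI_dual.2 h)))⟩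

/-- For a class of sets closed under `star`. -/
theorem class_iff (K : Set (Set (ℕ → Bool))) (hK : ∀ A ∈ K, star A ∈ K) :
    (∀ A ∈ K, TuringInvariant A → WinsI A ∨ WinsII A) ↔ ∀ A ∈ K, BoardsI A ∨ BoardsII A := by
  constructor
  · intro h A hA
    exact (h _ (hK A hA) (star_invariant A)).imp boardsI_of_star boardsII_of_star
  · intro h A hA hinv
    exact (h A hA).imp (boardsI_iff hinv).1 (boardsII_iff hinv).1

/-- With the axiom of choice: a game in which neither player can win one of infinitely many
boards. -/
theorem exists_no_boards : ∃ A : Set (ℕ → Bool), ¬ BoardsI A ∧ ¬ BoardsII A := by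
  obtain ⟨A, hA, h1, h2⟩ := exists_undetermined
  exact ⟨A, fun h => h1 ((boardsI_iff hA).1 h), fun h => h2 ((boardsII_iff hA).1 h)⟩

/-- Player I chooses his role in the game with payoff set `U`: after `0` (and a dummy move of player
II) he is player I, after `1` (and two dummy moves) he is player II. -/
def roles (U : Set (ℕ → Bool)) : Set (ℕ → Bool) :=
  {x | (x 0 = false ∧ (fun n => x (n + 2)) ∈ U) ∨ (x 0 = true ∧ (fun n => x (n + 3)) ∉ U)}

theorem nth_parity (r m : ℕ) (hr : r < 2) : Nat.nth (fun t => t % 2 = r) m = 2 * m + r := by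
  have h1 : (2 * m + r) % 2 = r := by omega
  have h2 : Nat.count (fun t => t % 2 = r) (2 * m + r) = m := by
    induction m with
    | zero =>
      rcases (by omega : r = 0 ∨ r = 1) with rfl | rfl
      · simp
      · simp [Nat.count_succ]
    | succ m ih =>
      have e : 2 * (m + 1) + r = 2 * m + r + 1 + 1 := by ring
      rw [e, Nat.count_succ, Nat.count_succ, ih (by omega), if_pos (by omega), if_neg (by omega)]
  have h3 := Nat.nth_count (p := fun t => t % 2 = r) h1
  rwa [h2] at h3

/-- Player I can win one of `n` boards. -/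
def FewI (n : ℕ) (A : Set (ℕ → Bool)) : Prop :=
  ∃ s : List Bool → ℕ × Bool, (∀ L, (s L).1 < n) ∧ ∀ v : ℕ → Bool, ∃ k,
    {t | board s v t = k}.Infinite ∧
    weave (fun m => move s v (visit s v k m)) (fun m => v (visit s v k m)) ∈ A

/-- Player II can win one of `n` boards. -/
def FewII (n : ℕ) (A : Set (ℕ → Bool)) : Prop :=
  ∃ s : List Bool → ℕ × Bool, (∀ L, (s L).1 < n) ∧ ∀ v : ℕ → Bool, ∃ k,
    {t | board s v t = k}.Infinite ∧
    weave (fun m => v (visit s v k m)) (fun m => move s v (visit s v k (m + 1))) ∉ A

theorem fewI_dual {n : ℕ} {A : Set (ℕ → Bool)} : FewI n (dual A) ↔ FewII n A :=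
  exists_congr fun s => and_congr Iff.rfl (forall_congr' fun v => exists_congr fun k =>
    and_congr Iff.rfl (mem_dual s v k))

theorem boardsI_of_fewI {n : ℕ} {A : Set (ℕ → Bool)} (h : FewI n A) : BoardsI A := by
  obtain ⟨s, -, h⟩ := h
  exact ⟨s, h⟩

theorem boardsII_of_fewII {n : ℕ} {A : Set (ℕ → Bool)} (h : FewII n A) : BoardsII A := by
  obtain ⟨s, -, h⟩ := h
  exact ⟨s, h⟩

/-- One board. -/
theorem fewI_one {A : Set (ℕ → Bool)} : FewI 1 A ↔ WinsI A := by
  constructor
  · rintro ⟨s, hs, h⟩
    refine winsI_of_limitI ⟨s, fun _ => 0, fun v => ?_⟩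
    obtain ⟨k, hinf, hk⟩ := h v
    obtain ⟨t, ht⟩ := hinf.nonempty
    have h1 : k = 0 := by
      have h2 := hs (hist v t)
      change board s v t = k at ht
      unfold board at ht
      omega
    exact ⟨k, Eventually.of_forall fun _ => h1.symm, hinf, hk⟩
  · intro h
    obtain ⟨s, hs⟩ := exists_zero h
    refine ⟨s, fun L => ?_, fun v => ⟨0, ?_, (hs v).2⟩⟩
    · have h1 := (hs fun n => L.getD n false).1 L.length
      unfold board at h1
      have h2 : hist (fun n => L.getD n false) L.length = L := by
        refine List.ext_getElem (by simp [hist]) fun i h3 h4 => ?_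
        simp [hist, h4]
      rw [h2] at h1
      omega
    · have : {t | board s v t = 0} = Set.univ := Set.eq_univ_of_forall fun t => (hs v).1 t
      rw [this]
      exact Set.infinite_univ

theorem fewII_one {A : Set (ℕ → Bool)} : FewII 1 A ↔ WinsII A := by
  rw [← fewI_dual, fewI_one, winsI_dual]

theorem fewI_roles (U : Set (ℕ → Bool)) : FewI 2 (roles U) := by
  let s : List Bool → ℕ × Bool := fun L => ((L.length + 1) % 2,
    if L.length = 0 then true else if L.length = 1 then false else L.getD (L.length - 1) false)
  have hb : ∀ v t, board s v t = (t + 1) % 2 := fun v t => by simp [board, s]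
  have hm : ∀ v t, move s v (t + 2) = v (t + 1) := by
    intro v t
    simp only [move, s, hist_length]
    rw [if_neg (by omega), if_neg (by omega)]
    exact hist_getD (by omega)
  have hm0 : ∀ v, move s v 0 = true := fun v => by simp [move, s]
  have hm1 : ∀ v, move s v 1 = false := fun v => by simp [move, s]
  have hv0 : ∀ v m, visit s v 0 m = 2 * m + 1 := by
    intro v m
    rw [visit, ← nth_parity 1 m (by norm_num)]
    congr 1
    funext t
    rw [hb]
    exact propext (by omega)
  have hv1 : ∀ v m, visit s v 1 m = 2 * m := by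
    intro v m
    have h := nth_parity 0 m (by norm_num)
    rw [Nat.add_zero] at h
    rw [visit, ← h]
    congr 1
    funext t
    rw [hb]
    exact propext (by omega)
  refine ⟨s, fun L => Nat.mod_lt _ (by norm_num), fun v => ?_⟩
  have e0 : (fun n => weave (fun m => move s v (visit s v 0 m)) (fun m => v (visit s v 0 m))
      (n + 2)) = fun n => v (n + 2) := by
    funext n
    rcases Nat.even_or_odd' n with ⟨m, rfl | rfl⟩
    · have e : 2 * m + 2 = 2 * (m + 1) := by ring
      rw [e, weave_even, hv0]
      exact hm v (2 * m + 1)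
    · have e : 2 * m + 1 + 2 = 2 * (m + 1) + 1 := by ring
      rw [e, weave_odd, hv0]
  have e1 : (fun n => weave (fun m => move s v (visit s v 1 m)) (fun m => v (visit s v 1 m))
      (n + 3)) = fun n => v (n + 2) := by
    funext n
    rcases Nat.even_or_odd' n with ⟨m, rfl | rfl⟩
    · have e : 2 * m + 3 = 2 * (m + 1) + 1 := by ring
      rw [e, weave_odd, hv1]
      rfl
    · have e : 2 * m + 1 + 3 = 2 * (m + 2) := by ring
      rw [e, weave_even, hv1]
      exact hm v (2 * m + 2)
  by_cases h : (fun n => v (n + 2)) ∈ U
  · refine ⟨0, ?_, Or.inl ⟨?_, ?_⟩⟩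
    · refine Set.infinite_of_injective_forall_mem (f := fun n : ℕ => 2 * n + 1)
        (fun m n hmn => by simpa using hmn) fun n => ?_
      change board s v (2 * n + 1) = 0
      rw [hb]
      omega
    · have := weave_even (fun m => move s v (visit s v 0 m)) (fun m => v (visit s v 0 m)) 0
      rw [Nat.mul_zero] at this
      rw [this, hv0]
      exact hm1 v
    · rw [e0]
      exact h
  · refine ⟨1, ?_, Or.inr ⟨?_, ?_⟩⟩
    · refine Set.infinite_of_injective_forall_mem (f := fun n : ℕ => 2 * n)
        (fun m n hmn => by simpa using hmn) fun n => ?_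
      change board s v (2 * n) = 1
      rw [hb]
      omega
    · have := weave_even (fun m => move s v (visit s v 1 m)) (fun m => v (visit s v 1 m)) 0
      rw [Nat.mul_zero] at this
      rw [this, hv1]
      exact hm0 v
    · rw [e1]
      exact h

/-- A play which starts with `L` and continues with `u`. -/
def cat (L : List Bool) (u : ℕ → Bool) (n : ℕ) : Bool :=
  if n < L.length then L.getD n false else u (n - L.length)

theorem hist_cat (L : List Bool) (u : ℕ → Bool) (n : ℕ) :
    hist (cat L u) (n + L.length) = L ++ hist u n := by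
  refine List.ext_getElem (by simp; omega) fun i h1 h2 => ?_
  simp only [hist, List.getElem_map, List.getElem_range]
  unfold cat
  by_cases h : i < L.length
  · rw [if_pos h, List.getElem_append_left h, List.getD_eq_getElem _ _ h]
  · rw [if_neg h, List.getElem_append_right (by omega)]
    simp

theorem not_wins_roles {U : Set (ℕ → Bool)} (h1 : ¬ WinsI U) (h2 : ¬ WinsII U) :
    ¬ WinsI (roles U) ∧ ¬ WinsII (roles U) := by
  constructor
  · rintro ⟨σ, hσ⟩
    cases h0 : σ [] with
    | false =>
      refine h1 ⟨fun L => σ ([false, false] ++ L), fun u hu => ?_⟩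
      have h3 := hσ (cat [false, false] u) fun n => ?_
      · rcases h3 with ⟨-, h3⟩ | ⟨h3, -⟩
        · have : (fun n => cat [false, false] u (n + 2)) = u := by
            funext n
            simp [cat]
          rwa [this] at h3
        · simp [cat] at h3
      · cases n with
        | zero => simp [cat, hist, h0]
        | succ n =>
          have e : 2 * (n + 1) = 2 * n + [false, false].length := by simp; ring
          have h4 : u (2 * n) = σ ([false, false] ++ hist u (2 * n)) := hu n
          rw [e, hist_cat, ← h4]
          simp [cat]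
    | true =>
      generalize ha : σ [true, false] = a
      refine h2 ⟨fun L => σ ([true, false, a] ++ L), fun u hu => ?_⟩
      have h3 := hσ (cat [true, false, a] u) fun n => ?_
      · rcases h3 with ⟨h3, -⟩ | ⟨-, h3⟩
        · simp [cat] at h3
        · have : (fun n => cat [true, false, a] u (n + 3)) = u := by
            funext n
            simp [cat]
          rwa [this] at h3
      · rcases n with _ | _ | n
        · simp [cat, hist, h0]
        · simp [cat, hist, List.range_succ, ha]
        · have e : 2 * (n + 1 + 1) = 2 * n + 1 + [true, false, a].length := by simp; ring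
          have h4 : u (2 * n + 1) = σ ([true, false, a] ++ hist u (2 * n + 1)) := hu n
          rw [e, hist_cat, ← h4]
          simp [cat]
  · rintro ⟨τ, hτ⟩
    generalize ha : τ [false] = a
    refine h2 ⟨fun L => τ ([false, a] ++ L), fun u hu hU => ?_⟩
    refine hτ (cat [false, a] u) (fun n => ?_) (Or.inl ⟨by simp [cat], ?_⟩)
    · cases n with
      | zero => simp [cat, hist, ha]
      | succ n =>
        have e : 2 * (n + 1) + 1 = 2 * n + 1 + [false, a].length := by simp; ring
        have h4 : u (2 * n + 1) = τ ([false, a] ++ hist u (2 * n + 1)) := hu n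
        rw [e, hist_cat, ← h4]
        simp [cat]
    · have : (fun n => cat [false, a] u (n + 2)) = u := by
        funext n
        simp [cat]
      rw [this]
      exact hU

/-- With the axiom of choice: a game in which player I can win one of two boards, but which is not
determined. -/
theorem exists_few_not_wins :
    ∃ A : Set (ℕ → Bool), FewI 2 A ∧ ¬ WinsI A ∧ ¬ WinsII A := by
  obtain ⟨U, -, h1, h2⟩ := exists_undetermined
  exact ⟨roles U, fewI_roles U, not_wins_roles h1 h2⟩

end Pool.Agent.Q24.BD
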