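import Pool.Agent.Q24.BD.Star

set_option autoImplicit false

namespace Pool.Agent.Q24.BD

open Pool.Agent.H685R3 Pool.Agent.Helper227 Encodable

/-- The number of occurrences of `k` in `K`. -/
def cnt (K : List ℕ) (k : ℕ) : ℕ := (K.filter fun a => decide (a = k)).length

theorem cnt_map (f : ℕ → ℕ) (k t : ℕ) :
    cnt ((List.range t).map f) k = Nat.count (fun i => f i = k) t := by
  induction t with
  | zero => rfl
  | succ t ih =>
    rw [Nat.count_succ, ← ih, cnt, cnt, List.range_succ, List.map_append, List.filter_append,
      List.length_append]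
    congr 1
    by_cases h : f t = k <;> simp [h]

theorem primrec_cnt : Primrec₂ cnt := by
  have h : PrimrecRel fun a b : ℕ => a = b := Primrec.eq
  exact Primrec.list_length.comp (h.listFilter)

/-- A sequence with `v t = G v t`, where `G v t` depends only on the members before `t`. -/
theorem exists_seq (G : (ℕ → Bool) → ℕ → Bool)
    (hG : ∀ v v' t, (∀ t' < t, v t' = v' t') → G v t = G v' t) :
    ∃ v : ℕ → Bool, ∀ t, v t = G v t := by
  obtain ⟨v, hv⟩ := exists_rec (α := Bool) fun L => G (fun n => L.getD n false) L.length
  refine ⟨v, fun t => ?_⟩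
  conv_lhs => rw [hv t]
  simp only [List.length_map, List.length_range]
  refine hG _ _ _ fun t' ht' => ?_
  simp [ht']

theorem board_congr {s : List Bool → ℕ × Bool} {v v' : ℕ → Bool} {t : ℕ}
    (h : ∀ i < t, v i = v' i) : board s v t = board s v' t := by
  rw [board, board, hist_congr h]

theorem move_congr {s : List Bool → ℕ × Bool} {v v' : ℕ → Bool} {t : ℕ}
    (h : ∀ i < t, v i = v' i) : move s v t = move s v' t := by
  rw [move, move, hist_congr h]

/-- The number of times the board of the time `t` has been named before. -/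
noncomputable def age (s : List Bool → ℕ × Bool) (v : ℕ → Bool) (t : ℕ) : ℕ :=
  Nat.count (fun i => board s v i = board s v t) t

theorem countp_congr {P Q : ℕ → Prop} [DecidablePred P] [DecidablePred Q] {T : ℕ}
    (H : ∀ t < T, P t ↔ Q t) : Nat.count P T = Nat.count Q T := by
  induction T with
  | zero => simp
  | succ T ih =>
    rw [Nat.count_succ, Nat.count_succ, ih fun t ht => H t (by omega)]
    have h1 := H T (by omega)
    by_cases h2 : P T
    · rw [if_pos h2, if_pos (h1.1 h2)]
    · rw [if_neg h2, if_neg fun h3 => h2 (h1.2 h3)]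

theorem age_congr {s : List Bool → ℕ × Bool} {v v' : ℕ → Bool} {t : ℕ}
    (h : ∀ i < t, v i = v' i) : age s v t = age s v' t := by
  refine countp_congr fun i hi => ?_
  rw [board_congr (v' := v') fun j hj => h j (by omega), board_congr (v' := v') h]

theorem visit_mem {s : List Bool → ℕ × Bool} {v : ℕ → Bool} {k : ℕ}
    (h : {t | board s v t = k}.Infinite) (m : ℕ) : board s v (visit s v k m) = k :=
  Nat.nth_mem_of_infinite h m

theorem age_visit {s : List Bool → ℕ × Bool} {v : ℕ → Bool} {k : ℕ}
    (h : {t | board s v t = k}.Infinite) (m : ℕ) : age s v (visit s v k m) = m := by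
  rw [age, visit_mem h]
  exact Nat.count_nth_of_infinite h m

/-- The play of the strategy against the opponent who makes the moves `u 0, u 1, ...` on every
board. -/
theorem exists_echo (s : List Bool → ℕ × Bool) (u : ℕ → Bool) :
    ∃ v : ℕ → Bool, ∀ t, v t = u (age s v t) :=
  exists_seq (fun v t => u (age s v t)) fun v v' t h => by
    rw [age_congr h]

/-- A code of the strategy. -/
def code (s : List Bool → ℕ × Bool) (n : ℕ) : Bool :=
  match decode (α := List Bool × ℕ × Bool) n with
  | some y => decide (s y.1 = y.2)
  | none => false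

theorem code_encode (s : List Bool → ℕ × Bool) (L : List Bool) (k : ℕ) (b : Bool) :
    code s (encode (L, k, b)) = true ↔ s L = (k, b) := by
  simp [code]

theorem tLe_move {s : List Bool → ℕ × Bool} {u v : ℕ → Bool} (hu : TLe (code s) u)
    (hv : ∀ t, v t = u (age s v t)) {k : ℕ} (hinf : {t | board s v t = k}.Infinite) (d : ℕ) :
    TLe (fun m => move s v (visit s v k (m + d))) u := by
  rw [tLe_iff_SI]
  have hz : SI u fun y : List Bool × ℕ × Bool => s y.1 = y.2 := by
    have h1 := (tLe_iff_SI.1 hu).comp (f := fun y : List Bool × ℕ × Bool => (encode y, true))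
      (Primrec.encode.pair (Primrec.const true))
    exact h1.of_eq fun y => code_encode s y.1 y.2.1 y.2.2
  -- `y = (x, L, K)`
  have h1 : SI u fun x : ℕ × Bool => ∃ L : List Bool, ∃ K : List ℕ,
      (K.length = L.length ∧ cnt K k = x.1 + d) ∧ s L = (k, x.2) ∧
      ∀ t < L.length, (s (L.take t) = (K.getD t 0, true) ∨ s (L.take t) = (K.getD t 0, false)) ∧
        u (cnt (K.take t) (K.getD t 0)) = L.getD t false := by
    refine SI.ex (p := fun (x : ℕ × Bool) (L : List Bool) => ∃ K : List ℕ,
      (K.length = L.length ∧ cnt K k = x.1 + d) ∧ s L = (k, x.2) ∧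
      ∀ t < L.length, (s (L.take t) = (K.getD t 0, true) ∨ s (L.take t) = (K.getD t 0, false)) ∧
        u (cnt (K.take t) (K.getD t 0)) = L.getD t false) ?_
    refine SI.ex (p := fun (x : (ℕ × Bool) × List Bool) (K : List ℕ) =>
      (K.length = x.2.length ∧ cnt K k = x.1.1 + d) ∧ s x.2 = (k, x.1.2) ∧
      ∀ t < x.2.length, (s (x.2.take t) = (K.getD t 0, true) ∨
        s (x.2.take t) = (K.getD t 0, false)) ∧
        u (cnt (K.take t) (K.getD t 0)) = x.2.getD t false) ?_
    refine SI.and (SI.of_prim (PrimrecPred.and ?_ ?_)) (SI.and ?_ ?_)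
    · exact Primrec.eq.comp (Primrec.list_length.comp Primrec.snd)
        (Primrec.list_length.comp (Primrec.snd.comp Primrec.fst))
    · exact Primrec.eq.comp (primrec_cnt.comp Primrec.snd (Primrec.const k))
        (Primrec.nat_add.comp (Primrec.fst.comp (Primrec.fst.comp Primrec.fst))
          (Primrec.const d))
    · exact hz.comp (f := fun y : ((ℕ × Bool) × List Bool) × List ℕ => (y.1.2, k, y.1.1.2))
        ((Primrec.snd.comp Primrec.fst).pair ((Primrec.const k).pair
          (Primrec.snd.comp (Primrec.fst.comp Primrec.fst))))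
    · refine SI.all_lt (α := ((ℕ × Bool) × List Bool) × List ℕ) (p := fun x t =>
        (s (x.1.2.take t) = (x.2.getD t 0, true) ∨ s (x.1.2.take t) = (x.2.getD t 0, false)) ∧
        u (cnt (x.2.take t) (x.2.getD t 0)) = x.1.2.getD t false) (f := fun x => x.1.2.length) ?_
        (Primrec.list_length.comp (Primrec.snd.comp Primrec.fst))
      have hL : Primrec fun y : (((ℕ × Bool) × List Bool) × List ℕ) × ℕ => y.1.1.2 :=
        Primrec.snd.comp (Primrec.fst.comp Primrec.fst)
      have hK : Primrec fun y : (((ℕ × Bool) × List Bool) × List ℕ) × ℕ => y.1.2 :=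
        Primrec.snd.comp Primrec.fst
      have hk : Primrec fun y : (((ℕ × Bool) × List Bool) × List ℕ) × ℕ => y.1.2.getD y.2 0 :=
        (Primrec.list_getD 0).comp hK Primrec.snd
      have ht : Primrec fun y : (((ℕ × Bool) × List Bool) × List ℕ) × ℕ => y.1.1.2.take y.2 :=
        Primrec.list_take.comp Primrec.snd hL
      refine SI.and (SI.or ?_ ?_) ?_
      · exact hz.comp (f := fun y : (((ℕ × Bool) × List Bool) × List ℕ) × ℕ =>
          (y.1.1.2.take y.2, y.1.2.getD y.2 0, true)) (ht.pair (hk.pair (Primrec.const true)))
      · exact hz.comp (f := fun y : (((ℕ × Bool) × List Bool) × List ℕ) × ℕ =>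
          (y.1.1.2.take y.2, y.1.2.getD y.2 0, false)) (ht.pair (hk.pair (Primrec.const false)))
      · exact SI.query.comp (f := fun y : (((ℕ × Bool) × List Bool) × List ℕ) × ℕ =>
          (cnt (y.1.2.take y.2) (y.1.2.getD y.2 0), y.1.1.2.getD y.2 false))
          ((primrec_cnt.comp (Primrec.list_take.comp Primrec.snd hK) hk).pair
            ((Primrec.list_getD false).comp hL Primrec.snd))
  refine h1.of_eq fun x => ?_
  obtain ⟨m, b⟩ := x
  simp only
  constructor
  · rintro ⟨L, K, ⟨h2, h3⟩, h4, h5⟩
    have h6 : ∀ t ≤ L.length, L.take t = hist v t ∧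
        K.take t = (List.range t).map (board s v) := by
      intro t
      induction t with
      | zero => intro _; simp [hist]
      | succ t ih =>
        intro ht
        obtain ⟨ih1, ih2⟩ := ih (by omega)
        have h7 : t < L.length := by omega
        have h8 : t < K.length := by omega
        obtain ⟨h9, h10⟩ := h5 t h7
        rw [ih1] at h9
        rw [ih2, List.getD_eq_getElem _ _ h8, List.getD_eq_getElem _ _ h7] at h10
        rw [List.getD_eq_getElem _ _ h8] at h9
        have h11 : K[t] = board s v t := by
          unfold board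
          rcases h9 with h9 | h9 <;> rw [h9]
        rw [h11, cnt_map] at h10
        have h12 : L[t] = v t := by
          rw [← h10, hv t]
          rfl
        rw [List.take_succ_eq_append_getElem h7, List.take_succ_eq_append_getElem h8, ih1, ih2,
          h11, h12]
        simp [hist, List.range_succ]
    obtain ⟨h7, h8⟩ := h6 L.length le_rfl
    rw [List.take_length] at h7
    rw [← h2, List.take_length, h2] at h8
    have h9 : s (hist v L.length) = (k, b) := by rw [← h7]; exact h4
    have h10 : board s v L.length = k := by rw [board, h9]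
    rw [h8, cnt_map] at h3
    have h11 : visit s v k (m + d) = L.length := by
      rw [visit, ← h3]
      exact Nat.nth_count (p := fun i => board s v i = k) h10
    rw [h11, move, h9]
  · intro hb
    generalize hT : visit s v k (m + d) = T at hb
    have hbk : board s v T = k := by
      rw [← hT]
      exact visit_mem hinf _
    have hcT : Nat.count (fun i => board s v i = k) T = m + d := by
      rw [← hT]
      exact Nat.count_nth_of_infinite hinf _
    refine ⟨hist v T, (List.range T).map (board s v), ⟨by simp, ?_⟩, ?_, fun t ht => ?_⟩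
    · rw [cnt_map, hcT]
    · rw [← hbk, ← hb]
      rfl
    · rw [hist_length] at ht
      have h2 : (hist v T).take t = hist v t := by
        simp [hist, ← List.map_take, List.take_range, ht.le]
      have h3 : ((List.range T).map (board s v)).take t = (List.range t).map (board s v) := by
        simp [← List.map_take, List.take_range, ht.le]
      have h4 : ((List.range T).map (board s v)).getD t 0 = board s v t := by
        simp [ht]
      rw [h2, h3, h4, hist_getD ht, cnt_map]
      refine ⟨?_, (hv t).symm⟩
      have h5 : s (hist v t) = (board s v t, (s (hist v t)).2) := rfl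
      cases h6 : (s (hist v t)).2 with
      | true => left; rw [h6] at h5; exact h5
      | false => right; rw [h6] at h5; exact h5

theorem weave_even (a b : ℕ → Bool) (n : ℕ) : weave a b (2 * n) = a n := by
  unfold weave
  rw [if_pos (by omega)]
  congr 1
  omega

theorem weave_odd (a b : ℕ → Bool) (n : ℕ) : weave a b (2 * n + 1) = b n := by
  unfold weave
  rw [if_neg (by omega)]
  congr 1
  omega

theorem tLe_weave {a b u : ℕ → Bool} (h : TLe a u) (h' : TLe b u) : TLe (weave a b) u := by
  rw [tLe_iff_SI] at h h' ⊢
  have hm : PrimrecPred fun y : ℕ × Bool => y.1 % 2 = 0 :=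
    Primrec.eq.comp (Primrec.nat_mod.comp Primrec.fst (Primrec.const 2)) (Primrec.const 0)
  have hf : Primrec fun y : ℕ × Bool => (y.1 / 2, y.2) :=
    (Primrec.nat_div.comp Primrec.fst (Primrec.const 2)).pair Primrec.snd
  have h1 := SI.or (SI.and (SI.of_prim hm) (h.comp hf)) (SI.and (SI.of_prim hm.not) (h'.comp hf))
  refine h1.of_eq fun y => ?_
  simp only [weave]
  by_cases h2 : y.1 % 2 = 0 <;> simp [h2]

theorem winsI_of_boardsI {A : Set (ℕ → Bool)} (hA : TuringInvariant A) (h : BoardsI A) :
    WinsI A := by
  obtain ⟨s, hs⟩ := h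
  refine wins_of_cone (b := 0) (by norm_num) (z := code s) fun u hu => ?_
  obtain ⟨v, hv⟩ := exists_echo s u
  obtain ⟨k, hinf, hk⟩ := hs v
  have e1 : (fun m => v (visit s v k m)) = u := by
    funext m
    rw [hv, age_visit hinf]
  rw [e1] at hk
  have h1 : TLe (fun m => move s v (visit s v k m)) u := tLe_move hu hv hinf 0
  refine hA _ _ (tLe_weave h1 (TuringReducible.refl _)) ?_ hk
  exact tLe_of_positions (b := 1) fun n => weave_odd _ _ n

theorem winsII_of_boardsII {A : Set (ℕ → Bool)} (hA : TuringInvariant A) (h : BoardsII A) :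
    WinsII A := by
  obtain ⟨s, hs⟩ := h
  refine winsII_iff.2 (wins_of_cone (b := 1) (by norm_num) (z := code s) fun u hu => ?_)
  obtain ⟨v, hv⟩ := exists_echo s u
  obtain ⟨k, hinf, hk⟩ := hs v
  have e1 : (fun m => v (visit s v k m)) = u := by
    funext m
    rw [hv, age_visit hinf]
  rw [e1] at hk
  have h1 : TLe (fun m => move s v (visit s v k (m + 1))) u := tLe_move hu hv hinf 1
  have h2 : TLe (weave u fun m => move s v (visit s v k (m + 1))) u :=
    tLe_weave (TuringReducible.refl _) h1
  have h3 : TLe u (weave u fun m => move s v (visit s v k (m + 1))) :=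
    tLe_of_positions (b := 0) fun n => weave_even _ _ n
  exact fun hu' => hk (hA _ _ h3 h2 hu')

end Pool.Agent.Q24.BD
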