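import Pool.Agent.Q24.BD.Excl

set_option autoImplicit false

namespace Pool.Agent.Q24.BD

open Pool.Agent.H685R3 Filter

/-- The number of visits to the board `k` before the time `t`. -/
noncomputable def vis (s : List Bool → ℕ × Bool) (v : ℕ → Bool) (k t : ℕ) : ℕ :=
  Nat.count (fun i => board s v i = k) t

/-- The position on the board `k` at the time `t`. -/
noncomputable def posn (s : List Bool → ℕ × Bool) (v : ℕ → Bool) (k t : ℕ) : List Bool :=
  hist (onI s v k) (2 * vis s v k t)

theorem vis_congr {s : List Bool → ℕ × Bool} {v v' : ℕ → Bool} {t : ℕ}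
    (h : ∀ i < t, v i = v' i) (k : ℕ) : vis s v k t = vis s v' k t := by
  refine countp_congr fun i hi => ?_
  rw [board_congr (v' := v') fun j hj => h j (by omega)]

theorem vis_succ_self {s : List Bool → ℕ × Bool} {v : ℕ → Bool} {k t : ℕ}
    (h : board s v t = k) : vis s v k (t + 1) = vis s v k t + 1 := by
  rw [vis, Nat.count_succ, if_pos h]
  rfl

theorem vis_succ_other {s : List Bool → ℕ × Bool} {v : ℕ → Bool} {k t : ℕ}
    (h : board s v t ≠ k) : vis s v k (t + 1) = vis s v k t := by
  rw [vis, Nat.count_succ, if_neg h]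
  rfl

theorem visit_lt {s : List Bool → ℕ × Bool} {v v' : ℕ → Bool} {k t j : ℕ}
    (h : ∀ i < t, v i = v' i) (hj : j < vis s v k t) :
    visit s v k j < t ∧ visit s v' k j = visit s v k j := by
  have h1 : visit s v k j < t := Nat.nth_lt_of_lt_count hj
  have h2 : board s v (visit s v k j) = k ∧
      Nat.count (fun i => board s v i = k) (visit s v k j) = j := by
    have h3 : ∀ hf : (Set.ofPred fun i => board s v i = k).Finite, j < hf.toFinset.card := by
      intro hf
      exact lt_of_lt_of_le hj (Nat.count_le_card hf t)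
    exact ⟨Nat.nth_mem j h3, Nat.count_nth h3⟩
  refine ⟨h1, ?_⟩
  have h3 : ∀ i ≤ visit s v k j, board s v' i = board s v i := fun i hi =>
    (board_congr fun l hl => (h l (by omega))).symm
  have h4 : board s v' (visit s v k j) = k := by rw [h3 _ le_rfl, h2.1]
  have h5 : Nat.count (fun i => board s v' i = k) (visit s v k j) = j := by
    refine (countp_congr (Q := fun i => board s v i = k) fun i hi => ?_).trans h2.2
    rw [h3 i (by omega)]
  have h6 := Nat.nth_count (p := fun i => board s v' i = k) h4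
  rw [h5] at h6
  exact h6

theorem visit_of_vis {s : List Bool → ℕ × Bool} {v : ℕ → Bool} {k t : ℕ}
    (h : board s v t = k) : visit s v k (vis s v k t) = t :=
  Nat.nth_count (p := fun i => board s v i = k) h

theorem posn_congr {s : List Bool → ℕ × Bool} {v v' : ℕ → Bool} {t : ℕ}
    (h : ∀ i < t, v i = v' i) (k : ℕ) : posn s v k t = posn s v' k t := by
  unfold posn
  rw [← vis_congr h k]
  refine hist_congr fun n hn => ?_
  obtain ⟨h1, h2⟩ := visit_lt (s := s) (k := k) (j := n / 2) h (by omega)
  unfold onI weave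
  beta_reduce
  rw [h2]
  split_ifs
  · exact move_congr fun i hi => h i (by omega)
  · exact h _ h1

theorem posn_zero (s : List Bool → ℕ × Bool) (v : ℕ → Bool) (k : ℕ) : posn s v k 0 = [] := by
  simp [posn, vis, hist]

theorem posn_even (s : List Bool → ℕ × Bool) (v : ℕ → Bool) (k t : ℕ) :
    (posn s v k t).length % 2 = 0 := by
  rw [posn, hist_length]
  omega

theorem posn_succ_self {s : List Bool → ℕ × Bool} {v : ℕ → Bool} {k t : ℕ}
    (h : board s v t = k) : posn s v k (t + 1) = posn s v k t ++ [move s v t, v t] := by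
  unfold posn
  rw [vis_succ_self h, onI, hist_weave_succ, visit_of_vis h]

theorem posn_succ_other {s : List Bool → ℕ × Bool} {v : ℕ → Bool} {k t : ℕ}
    (h : board s v t ≠ k) : posn s v k (t + 1) = posn s v k t := by
  unfold posn
  rw [vis_succ_other h]

/-- Player I has a winning strategy from the position `L`. -/
def Fr (A : Set (ℕ → Bool)) (L : List Bool) : Prop :=
  ∃ σ : List Bool → Bool, ∀ x : ℕ → Bool, hist x L.length = L →
    (∀ n, L.length ≤ 2 * n → x (2 * n) = σ (hist x (2 * n))) → x ∈ A

theorem not_fr_nil {A : Set (ℕ → Bool)} (h : ¬ WinsI A) : ¬ Fr A [] := by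
  rintro ⟨σ, hσ⟩
  exact h ⟨σ, fun x hx => hσ x rfl fun n _ => hx n⟩

theorem hist_eq_of_append {x : ℕ → Bool} {L L' : List Bool}
    (h : hist x (L ++ L').length = L ++ L') : hist x L.length = L := by
  have h1 : (hist x (L ++ L').length).take L.length = L := by rw [h]; simp
  rw [← h1]
  simp [hist, ← List.map_take, List.take_range]

theorem not_fr_step {A : Set (ℕ → Bool)} {L : List Bool} (hL : L.length % 2 = 0) (h : ¬ Fr A L)
    (a : Bool) : ∃ b, ¬ Fr A (L ++ [a, b]) := by
  by_contra hcon
  push Not at hcon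
  choose σ hσ using hcon
  apply h
  refine ⟨fun M => if M.length = L.length then a else σ (M.getD (L.length + 1) false) M,
    fun x hx hy => ?_⟩
  have h1 : x L.length = a := by
    have h2 := hy (L.length / 2) (by omega)
    have h3 : 2 * (L.length / 2) = L.length := by omega
    rw [h3] at h2
    rw [h2]
    simp
  refine hσ (x (L.length + 1)) x ?_ fun n hn => ?_
  · have h2 : (L ++ [a, x (L.length + 1)]).length = L.length + 2 := by simp
    rw [h2]
    have h3 : hist x (L.length + 2) = hist x L.length ++ [x L.length, x (L.length + 1)] := by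
      simp [hist, List.range_succ]
    rw [h3, hx, h1]
  · have h2 : (L ++ [a, x (L.length + 1)]).length = L.length + 2 := by simp
    rw [h2] at hn
    have h3 := hy n (by omega)
    rw [h3]
    simp only [hist_length]
    rw [if_neg (by omega), hist_getD (by omega)]

open Classical in
/-- An answer which keeps the position lost for player I. -/
noncomputable def pol (A : Set (ℕ → Bool)) (L : List Bool) (a : Bool) : Bool :=
  if h : ∃ b, ¬ Fr A (L ++ [a, b]) then h.choose else false

theorem pol_spec {A : Set (ℕ → Bool)} {L : List Bool} (hL : L.length % 2 = 0) (h : ¬ Fr A L)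
    (a : Bool) : ¬ Fr A (L ++ [a, pol A L a]) := by
  have h1 := not_fr_step hL h a
  unfold pol
  rw [dif_pos h1]
  exact h1.choose_spec

open Classical in
/-- The answers of player II: first those of `v₀`, then those of `y` on the boards with the property
`K`, and those given by `pol` on the other boards. -/
noncomputable def rule (A : Set (ℕ → Bool)) (s : List Bool → ℕ × Bool) (v₀ : ℕ → Bool) (N : ℕ)
    (K : ℕ → Prop) (y : ℕ → Bool) (v : ℕ → Bool) (t : ℕ) : Bool :=
  if t < N then v₀ t else if K (board s v t) then y (2 * vis s v (board s v t) t + 1)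
  else pol A (posn s v (board s v t) t) (move s v t)

theorem rule_congr {A : Set (ℕ → Bool)} {s : List Bool → ℕ × Bool} {v₀ : ℕ → Bool} {N : ℕ}
    {K : ℕ → Prop} {y : ℕ → Bool} {v v' : ℕ → Bool} {t : ℕ} (h : ∀ t' < t, v t' = v' t') :
    rule A s v₀ N K y v t = rule A s v₀ N K y v' t := by
  unfold rule
  rw [← board_congr h, ← move_congr h, ← vis_congr h, ← posn_congr h]

theorem exists_answers (A : Set (ℕ → Bool)) (s : List Bool → ℕ × Bool) (v₀ : ℕ → Bool) (N : ℕ)
    (K : ℕ → Prop) (y : ℕ → Bool) : ∃ v : ℕ → Bool, ∀ t, v t = rule A s v₀ N K y v t :=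
  exists_seq (fun v t => rule A s v₀ N K y v t) fun _ _ _ h => rule_congr h

noncomputable def answers (A : Set (ℕ → Bool)) (s : List Bool → ℕ × Bool) (v₀ : ℕ → Bool) (N : ℕ)
    (K : ℕ → Prop) (y : ℕ → Bool) : ℕ → Bool := (exists_answers A s v₀ N K y).choose

theorem answers_eq (A : Set (ℕ → Bool)) (s : List Bool → ℕ × Bool) (v₀ : ℕ → Bool) (N : ℕ)
    (K : ℕ → Prop) (y : ℕ → Bool) (t : ℕ) :
    answers A s v₀ N K y t = rule A s v₀ N K y (answers A s v₀ N K y) t :=
  (exists_answers A s v₀ N K y).choose_spec t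

/-- The answers for which player I has a winning strategy in no position on any board. -/
def Safe (A : Set (ℕ → Bool)) (s : List Bool → ℕ × Bool) : Set (ℕ → Bool) :=
  {v | ∀ k t, ¬ Fr A (posn s v k t)}

theorem safe_nonempty {A : Set (ℕ → Bool)} (s : List Bool → ℕ × Bool) (h : ¬ WinsI A) :
    (Safe A s).Nonempty := by
  refine ⟨answers A s (fun _ => false) 0 (fun _ => False) (fun _ => false), fun k t => ?_⟩
  generalize hv : answers A s (fun _ => false) 0 (fun _ => False) (fun _ => false) = v
  have hv' : ∀ t, v t = pol A (posn s v (board s v t) t) (move s v t) := by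
    intro t
    have h1 := answers_eq A s (fun _ => false) 0 (fun _ => False) (fun _ => false) t
    rw [hv] at h1
    rw [h1]
    unfold rule
    rw [if_neg (by omega), if_neg (by simp)]
  induction t with
  | zero =>
    rw [posn_zero]
    exact not_fr_nil h
  | succ t ih =>
    by_cases hk : board s v t = k
    · rw [posn_succ_self hk, hv' t, hk]
      exact pol_spec (posn_even _ _ _ _) ih _
    · rw [posn_succ_other hk]
      exact ih

theorem closed_of_det {S : Set (ℕ → Bool)} (n : ℕ)
    (h : ∀ z z' : ℕ → Bool, (∀ i < n, z i = z' i) → z ∈ S → z' ∈ S) : IsClosed S := by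
  have h1 : S = (fun z : ℕ → Bool => fun i : Fin n => z i) ⁻¹'
      ((fun z : ℕ → Bool => fun i : Fin n => z i) '' S) := by
    ext z
    refine ⟨fun hz => ⟨z, hz, rfl⟩, ?_⟩
    rintro ⟨z', hz', h2⟩
    exact h z' z (fun i hi => congrFun h2 ⟨i, hi⟩) hz'
  rw [h1]
  refine IsClosed.preimage (continuous_pi fun i => continuous_apply _) ?_
  exact isClosed_discrete _

theorem cyl_of_open {U : Set (ℕ → Bool)} (hU : IsOpen U) {x : ℕ → Bool} (hx : x ∈ U) :
    ∃ n, ∀ z : ℕ → Bool, (∀ i < n, z i = x i) → z ∈ U := by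
  obtain ⟨I, u, h1, h2⟩ := isOpen_pi_iff.1 hU x hx
  refine ⟨I.sup id + 1, fun z hz => h2 fun i hi => ?_⟩
  rw [hz i (Nat.lt_succ_of_le (Finset.le_sup (f := id) hi))]
  exact (h1 i hi).2

theorem safe_closed (A : Set (ℕ → Bool)) (s : List Bool → ℕ × Bool) : IsClosed (Safe A s) := by
  have h1 : Safe A s = ⋂ k, ⋂ t, {v | ¬ Fr A (posn s v k t)} := by
    ext v
    simp [Safe]
  rw [h1]
  refine isClosed_iInter fun k => isClosed_iInter fun t => closed_of_det t fun z z' h hz => ?_
  change ¬ Fr A (posn s z' k t)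
  rw [← posn_congr h]
  exact hz

/-- Player I can win one of infinitely many boards, and he can name it in the limit. -/
def LimitI (A : Set (ℕ → Bool)) : Prop :=
  ∃ (s : List Bool → ℕ × Bool) (g : List Bool → ℕ), ∀ v : ℕ → Bool, ∃ k,
    (∀ᶠ t in atTop, g (hist v t) = k) ∧ {t | board s v t = k}.Infinite ∧
    weave (fun m => move s v (visit s v k m)) (fun m => v (visit s v k m)) ∈ A

/-- The board on which player I wins is the same for all safe answers with a given beginning. -/
theorem freeze {A : Set (ℕ → Bool)} {s : List Bool → ℕ × Bool} {g : List Bool → ℕ}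
    (hne : (Safe A s).Nonempty)
    (h : ∀ v : ℕ → Bool, ∃ k, (∀ᶠ t in atTop, g (hist v t) = k) ∧
      {t | board s v t = k}.Infinite ∧ onI s v k ∈ A) :
    ∃ v₀ ∈ Safe A s, ∃ N k, ∀ v ∈ Safe A s, (∀ i < N, v i = v₀ i) →
      {t | board s v t = k}.Infinite ∧ onI s v k ∈ A := by
  have : CompactSpace (Safe A s) := isCompact_iff_compactSpace.1 (safe_closed A s).isCompact
  have : Nonempty (Safe A s) := hne.to_subtype
  let f : ℕ × ℕ → Set (Safe A s) := fun i => {v | ∀ t, i.2 ≤ t → g (hist v.1 t) = i.1}
  have hf : ∀ i, IsClosed (f i) := by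
    intro i
    have h1 : f i = ⋂ t, ⋂ (_ : i.2 ≤ t), Subtype.val ⁻¹' {v : ℕ → Bool | g (hist v t) = i.1} := by
      ext v
      simp [f]
    rw [h1]
    refine isClosed_iInter fun t => isClosed_iInter fun _ =>
      IsClosed.preimage continuous_subtype_val (closed_of_det t fun z z' h2 h3 => ?_)
    change g (hist z' t) = i.1
    rw [← hist_congr h2]
    exact h3
  have hU : ⋃ i, f i = Set.univ := by
    refine Set.eq_univ_of_forall fun v => ?_
    obtain ⟨k, hk, -⟩ := h v.1
    obtain ⟨T, hT⟩ := eventually_atTop.1 hk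
    exact Set.mem_iUnion.2 ⟨(k, T), hT⟩
  obtain ⟨i, v₀, hv₀⟩ := nonempty_interior_of_iUnion_of_closed hf hU
  obtain ⟨V, hV1, hV2, hV3⟩ := mem_interior.1 hv₀
  obtain ⟨U, hU1, hU2⟩ := isOpen_induced_iff.1 hV2
  have hxU : v₀.1 ∈ U := by
    have : v₀ ∈ Subtype.val ⁻¹' U := by rw [hU2]; exact hV3
    exact this
  obtain ⟨N, hN⟩ := cyl_of_open hU1 hxU
  refine ⟨v₀.1, v₀.2, N, i.1, fun v hv hvN => ?_⟩
  have h7 : (⟨v, hv⟩ : Safe A s) ∈ V := by rw [← hU2]; exact hN v hvN
  have h8 := hV1 h7
  obtain ⟨k, hk, hk'⟩ := h v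
  obtain ⟨T, hT⟩ := eventually_atTop.1 hk
  have h9 := h8 (max T i.2) (le_max_right _ _)
  have h10 := hT (max T i.2) (le_max_left _ _)
  have h11 : k = i.1 := by rw [← h10]; exact h9
  rw [← h11]
  exact hk'

end Pool.Agent.Q24.BD
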