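import Pool.Agent.Q24.BD.Limit

set_option autoImplicit false

namespace Pool.Agent.Q24.BD

open Pool.Agent.H685R3 Filter

/-- From a position in which player I has no winning strategy, every strategy of player I is beaten
by a play in which no position is won for player I. -/
theorem exists_beaten {A : Set (ℕ → Bool)} {c : ℕ} {L : List Bool} (hL : L.length = 2 * c)
    (h : ¬ Fr A L) (σ : List Bool → Bool) :
    ∃ y : ℕ → Bool, hist y (2 * c) = L ∧ (∀ n, c ≤ n → y (2 * n) = σ (hist y (2 * n))) ∧ y ∉ A ∧
      ∀ n, c ≤ n → ¬ Fr A (hist y (2 * n)) := by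
  classical
  -- `first M j`: the first position of the history `M` won for player I has length `2 j`
  let first : List Bool → ℕ → Prop := fun M j =>
    c ≤ j ∧ 2 * j ≤ M.length ∧ Fr A (M.take (2 * j)) ∧ ∀ i < j, c ≤ i → ¬ Fr A (M.take (2 * i))
  have hch : ∀ P : List Bool, ∃ τ : List Bool → Bool, Fr A P → ∀ x : ℕ → Bool,
      hist x P.length = P → (∀ n, P.length ≤ 2 * n → x (2 * n) = τ (hist x (2 * n))) → x ∈ A := by
    intro P
    by_cases hP : Fr A P
    · obtain ⟨τ, hτ⟩ := hP
      exact ⟨τ, fun _ => hτ⟩
    · exact ⟨fun _ => false, fun h => absurd h hP⟩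
  choose τ hτ using hch
  let σ' : List Bool → Bool := fun M =>
    if hM : ∃ j, first M j then τ (M.take (2 * Nat.find hM)) M else σ M
  have h1 : ¬ ∀ x : ℕ → Bool, hist x L.length = L →
      (∀ n, L.length ≤ 2 * n → x (2 * n) = σ' (hist x (2 * n))) → x ∈ A := fun h2 => h ⟨σ', h2⟩
  push Not at h1
  obtain ⟨y, hy1, hy2, hy3⟩ := h1
  rw [hL] at hy1 hy2
  have htake : ∀ m n, m ≤ n → (hist y n).take m = hist y m := by
    intro m n hmn
    simp [hist, ← List.map_take, List.take_range, hmn]
  have hsafe : ∀ n, c ≤ n → ¬ Fr A (hist y (2 * n)) := by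
    by_contra hcon
    push Not at hcon
    have hcon' : ∃ n, c ≤ n ∧ Fr A (hist y (2 * n)) := hcon
    obtain ⟨h4, h5⟩ := Nat.find_spec hcon'
    have h6 : ∀ i < Nat.find hcon', c ≤ i → ¬ Fr A (hist y (2 * i)) := fun i hi hci hf =>
      Nat.find_min hcon' hi ⟨hci, hf⟩
    generalize Nat.find hcon' = j at h4 h5 h6
    refine hy3 (hτ _ h5 y (by rw [hist_length]) fun n hn => ?_)
    rw [hist_length] at hn
    have h7 : first (hist y (2 * n)) j := by
      refine ⟨h4, by rw [hist_length]; exact hn, ?_, fun i hi hci => ?_⟩
      · rw [htake _ _ hn]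
        exact h5
      · rw [htake _ _ (by omega)]
        exact h6 i hi hci
    have h8 : ∃ j, first (hist y (2 * n)) j := ⟨j, h7⟩
    have h9 : Nat.find h8 = j := by
      rw [Nat.find_eq_iff]
      refine ⟨h7, fun i hi hfi => ?_⟩
      obtain ⟨h10, h11, h12, -⟩ := hfi
      exact h7.2.2.2 i hi h10 h12
    rw [hy2 n (by omega)]
    simp only [σ']
    rw [dif_pos h8, h9, htake _ _ hn]
  refine ⟨y, hy1.trans rfl, fun n hn => ?_, hy3, hsafe⟩
  rw [hy2 n (by omega)]
  simp only [σ']
  rw [dif_neg]
  rintro ⟨j, h4, h5, h6, -⟩
  rw [hist_length] at h5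
  rw [htake _ _ h5] at h6
  exact hsafe j h4 h6

/-- The answers depend only on the part of `y` which has been used. -/
theorem answers_congr {A : Set (ℕ → Bool)} {s : List Bool → ℕ × Bool} {v₀ : ℕ → Bool} {N k : ℕ}
    {y y' : ℕ → Bool} {m T : ℕ} (hy : ∀ n < 2 * m, y n = y' n)
    (hT : vis s (answers A s v₀ N (fun i => i = k) y) k T ≤ m) :
    ∀ t < T, answers A s v₀ N (fun i => i = k) y' t = answers A s v₀ N (fun i => i = k) y t := by
  generalize hv : answers A s v₀ N (fun i => i = k) y = v at *
  generalize hv' : answers A s v₀ N (fun i => i = k) y' = v'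
  have e1 := answers_eq A s v₀ N (fun i => i = k) y
  have e2 := answers_eq A s v₀ N (fun i => i = k) y'
  rw [hv] at e1
  rw [hv'] at e2
  intro t
  induction t using Nat.strong_induction_on with
  | _ t ih =>
    intro ht
    have h1 : ∀ t' < t, v t' = v' t' := fun t' ht' => (ih t' ht' (by omega)).symm
    rw [e2 t, e1 t, ← rule_congr h1]
    unfold rule
    by_cases h2 : t < N
    · rw [if_pos h2, if_pos h2]
    rw [if_neg h2, if_neg h2]
    by_cases h3 : board s v t = k
    · rw [if_pos h3, if_pos h3]
      refine (hy _ ?_).symm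
      rw [h3]
      have h4 : vis s v k (t + 1) ≤ vis s v k T := Nat.count_monotone _ (by omega)
      rw [vis_succ_self h3] at h4
      omega
    · rw [if_neg h3, if_neg h3]

/-- **A player who can win one of infinitely many boards and can name it in the limit has a winning
strategy on one board.** -/
theorem winsI_of_limitI {A : Set (ℕ → Bool)} (h : LimitI A) : WinsI A := by
  classical
  obtain ⟨s, g, hs⟩ := h
  by_contra hA
  obtain ⟨v₀, hv₀, N, k, hN⟩ := freeze (safe_nonempty s hA) hs
  set c := vis s v₀ k N with hc
  let σ : List Bool → Bool := fun M =>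
    move s (answers A s v₀ N (fun i => i = k) fun n => M.getD n false)
      (visit s (answers A s v₀ N (fun i => i = k) fun n => M.getD n false) k (M.length / 2))
  obtain ⟨y, hy1, hy2, hy3, hy4⟩ := exists_beaten (c := c) (L := posn s v₀ k N)
    (by rw [posn, hist_length]) (hv₀ k N) σ
  generalize hv : answers A s v₀ N (fun i => i = k) y = v
  have e1 : ∀ t, v t = rule A s v₀ N (fun i => i = k) y v t := by
    have h1 := answers_eq A s v₀ N (fun i => i = k) y
    rw [hv] at h1
    exact h1
  have hvN : ∀ t < N, v t = v₀ t := by
    intro t ht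
    rw [e1 t, rule, if_pos ht]
  have hposN : ∀ t ≤ N, ∀ k', posn s v k' t = posn s v₀ k' t := fun t ht k' =>
    posn_congr (fun i hi => hvN i (by omega)) k'
  have hvisN : vis s v k N = c := by rw [hc]; exact vis_congr hvN k
  have main : ∀ t, N ≤ t → posn s v k t = hist y (2 * vis s v k t) ∧ c ≤ vis s v k t ∧
      ∀ k', ¬ Fr A (posn s v k' t) := by
    intro t ht
    induction t, ht using Nat.le_induction with
    | base =>
      refine ⟨?_, by rw [hvisN], fun k' => ?_⟩
      · rw [hposN N le_rfl, hvisN, hy1]
      · rw [hposN N le_rfl]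
        exact hv₀ k' N
    | succ t ht ih =>
      obtain ⟨ih1, ih2, ih3⟩ := ih
      by_cases hk : board s v t = k
      · generalize hm : vis s v k t = m at ih1 ih2
        have hvt : v t = y (2 * m + 1) := by
          rw [e1 t, rule, if_neg (by omega), if_pos hk, hk, hm]
        have hmt : move s v t = y (2 * m) := by
          rw [hy2 m ih2]
          simp only [σ, hist_length]
          have h2 : 2 * m / 2 = m := by omega
          rw [h2]
          have h3 : ∀ n < 2 * m, y n = (fun n => (hist y (2 * m)).getD n false) n := fun n hn =>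
            (hist_getD hn).symm
          have h4 := answers_congr (A := A) (v₀ := v₀) (N := N) (T := t) h3
            (by rw [hv, hm])
          rw [hv] at h4
          generalize answers A s v₀ N (fun i => i = k)
            (fun n => (hist y (2 * m)).getD n false) = v' at h4
          have h5 : ∀ i < t, v i = v' i := fun i hi => (h4 i hi).symm
          have h6 : board s v' t = k := by rw [← board_congr h5, hk]
          have h7 : vis s v' k t = m := by rw [← vis_congr h5, hm]
          have h8 := visit_of_vis h6
          rw [h7] at h8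
          rw [h8]
          exact move_congr h5
        have hnew : posn s v k (t + 1) = hist y (2 * (m + 1)) := by
          rw [posn_succ_self hk, ih1, hvt, hmt]
          have h9 : 2 * (m + 1) = 2 * m + 1 + 1 := by ring
          rw [h9]
          simp [hist, List.range_succ]
        refine ⟨?_, ?_, fun k' => ?_⟩
        · rw [vis_succ_self hk, hm, hnew]
        · rw [vis_succ_self hk, hm]
          omega
        · by_cases hk' : k' = k
          · rw [hk', hnew]
            exact hy4 _ (by omega)
          · rw [posn_succ_other (fun h => hk' (h.symm.trans hk))]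
            exact ih3 k'
      · refine ⟨?_, ?_, fun k' => ?_⟩
        · rw [posn_succ_other hk, vis_succ_other hk, ih1]
        · rw [vis_succ_other hk]
          exact ih2
        · by_cases hk' : board s v t = k'
          · have hvt : v t = pol A (posn s v k' t) (move s v t) := by
              rw [e1 t, rule, if_neg (by omega), if_neg hk, hk']
            rw [posn_succ_self hk', hvt]
            exact pol_spec (posn_even _ _ _ _) (ih3 k') _
          · rw [posn_succ_other hk']
            exact ih3 k'
  have hsafe : v ∈ Safe A s := by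
    intro k' t
    rcases le_total t N with h1 | h1
    · rw [hposN t h1]
      exact hv₀ k' t
    · exact (main t h1).2.2 k'
  obtain ⟨hinf, hmem⟩ := hN v hsafe hvN
  refine hy3 ?_
  have h1 : onI s v k = y := by
    funext n
    have h2 : ∃ t, N ≤ t ∧ n < 2 * vis s v k t := by
      refine ⟨max N (visit s v k n + 1), le_max_left _ _, ?_⟩
      have h3 : vis s v k (visit s v k n + 1) = n + 1 := by
        rw [vis_succ_self (visit_mem hinf n)]
        congr 1
        exact Nat.count_nth_of_infinite hinf n
      have h4 : vis s v k (visit s v k n + 1) ≤ vis s v k (max N (visit s v k n + 1)) :=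
        Nat.count_monotone _ (le_max_right _ _)
      omega
    obtain ⟨t, h3, h4⟩ := h2
    have h5 := (main t h3).1
    unfold posn at h5
    have h6 := congrArg (fun L => L.getD n false) h5
    rw [hist_getD h4, hist_getD h4] at h6
    exact h6
  rw [← h1]
  exact hmem

end Pool.Agent.Q24.BD
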