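import Pool.Agent.Q24.BD.Fin

set_option autoImplicit false

namespace Pool.Agent.Q24.BD

open Pool.Agent.H685R3

open Classical in
/-- `v` is the result of the moves `x`, when the second player makes the moves on the board `j` and
the first player makes the moves on the other boards. -/
def Mixed (s : List Bool → ℕ × Bool) (j : ℕ) (x v : ℕ → Bool) : Prop :=
  ∀ t, v t = if board s v t = j then x (2 * t + 1) else x (2 * t)

theorem exists_mixed (s : List Bool → ℕ × Bool) (j : ℕ) (x : ℕ → Bool) :
    ∃ v, Mixed s j x v := by
  classical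
  obtain ⟨v, hv⟩ := exists_seq (fun v t => if board s v t = j then x (2 * t + 1) else x (2 * t))
    fun v v' t h => by rw [board_congr h]
  exact ⟨v, fun t => by rw [hv t]⟩

theorem mixed_congr {s : List Bool → ℕ × Bool} {j : ℕ} {x x' v v' : ℕ → Bool} {T : ℕ}
    (h : ∀ n < 2 * T, x n = x' n) (hv : Mixed s j x v) (hv' : Mixed s j x' v') :
    ∀ t < T, v t = v' t := by
  classical
  intro t
  induction t using Nat.strong_induction_on with
  | _ t ih =>
    intro ht
    have h1 : ∀ i < t, v i = v' i := fun i hi => ih i hi (by omega)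
    rw [hv t, hv' t, board_congr h1, h _ (by omega), h _ (by omega)]

/-- The result of the moves `x`. -/
noncomputable def mix (s : List Bool → ℕ × Bool) (j : ℕ) (x : ℕ → Bool) : ℕ → Bool :=
  (exists_mixed s j x).choose

theorem mix_spec (s : List Bool → ℕ × Bool) (j : ℕ) (x : ℕ → Bool) :
    Mixed s j x (mix s j x) := (exists_mixed s j x).choose_spec

theorem Mixed.eq_mix {s : List Bool → ℕ × Bool} {j : ℕ} {x v : ℕ → Bool} (h : Mixed s j x v) :
    mix s j x = v := by
  funext t
  exact mixed_congr (T := t + 1) (fun _ _ => rfl) (mix_spec s j x) h t (by omega)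

theorem continuous_mix (s : List Bool → ℕ × Bool) (j : ℕ) : Continuous (mix s j) := by
  refine continuous_pi fun t => ?_
  have h1 : ∀ S : Set Bool, IsClosed ((fun x => mix s j x t) ⁻¹' S) := fun S =>
    closed_of_det (2 * (t + 1)) fun z z' h hz => by
      change mix s j z' t ∈ S
      rw [← mixed_congr (T := t + 1) h (mix_spec s j z) (mix_spec s j z') t (by omega)]
      exact hz
  exact continuous_iff_isClosed.2 fun S _ => h1 S

/-- The histories of the game on the board `j` when the first player follows `σ`. -/
noncomputable def hI (s : List Bool → ℕ × Bool) (j : ℕ) (σ : List Bool → Bool) (v : ℕ → Bool) :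
    ℕ → List Bool
  | 0 => []
  | n + 1 => hI s j σ v n ++ [σ (hI s j σ v n), v n]

theorem hI_congr {s : List Bool → ℕ × Bool} {j : ℕ} {σ : List Bool → Bool} {v v' : ℕ → Bool}
    {t : ℕ} (h : ∀ i < t, v i = v' i) : hI s j σ v t = hI s j σ v' t := by
  induction t with
  | zero => rfl
  | succ t ih => rw [hI, hI, ih fun i hi => h i (by omega), h t (by omega)]

theorem hist_hI (s : List Bool → ℕ × Bool) (j : ℕ) (σ : List Bool → Bool) (v : ℕ → Bool) (n : ℕ) :
    hist (weave (fun n => σ (hI s j σ v n)) v) (2 * n) = hI s j σ v n := by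
  induction n with
  | zero => rfl
  | succ n ih => rw [hist_weave_succ, ih, hI]

open Classical in
/-- The answers: those of `y` on the board `j`, those given by `σ` on the other boards. -/
noncomputable def nrule (s : List Bool → ℕ × Bool) (j : ℕ) (σ : List Bool → Bool) (y v : ℕ → Bool)
    (t : ℕ) : Bool :=
  if board s v t = j then y (2 * vis s v j t + 1) else σ (hI s j σ v t)

theorem nrule_congr {s : List Bool → ℕ × Bool} {j : ℕ} {σ : List Bool → Bool} {y v v' : ℕ → Bool}
    {t : ℕ} (h : ∀ i < t, v i = v' i) : nrule s j σ y v t = nrule s j σ y v' t := by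
  unfold nrule
  rw [← board_congr h, ← vis_congr h, ← hI_congr h]

theorem exists_nans (s : List Bool → ℕ × Bool) (j : ℕ) (σ : List Bool → Bool) (y : ℕ → Bool) :
    ∃ v : ℕ → Bool, ∀ t, v t = nrule s j σ y v t :=
  exists_seq (fun v t => nrule s j σ y v t) fun _ _ _ h => nrule_congr h

noncomputable def nans (s : List Bool → ℕ × Bool) (j : ℕ) (σ : List Bool → Bool) (y : ℕ → Bool) :
    ℕ → Bool := (exists_nans s j σ y).choose

theorem nans_eq (s : List Bool → ℕ × Bool) (j : ℕ) (σ : List Bool → Bool) (y : ℕ → Bool) (t : ℕ) :
    nans s j σ y t = nrule s j σ y (nans s j σ y) t := (exists_nans s j σ y).choose_spec t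

theorem nans_congr {s : List Bool → ℕ × Bool} {j : ℕ} {σ : List Bool → Bool} {y y' : ℕ → Bool}
    {m T : ℕ} (hy : ∀ n < 2 * m, y n = y' n) (hT : vis s (nans s j σ y) j T ≤ m) :
    ∀ t < T, nans s j σ y' t = nans s j σ y t := by
  intro t
  induction t using Nat.strong_induction_on with
  | _ t ih =>
    intro ht
    have h1 : ∀ t' < t, nans s j σ y t' = nans s j σ y' t' := fun t' ht' =>
      (ih t' ht' (by omega)).symm
    rw [nans_eq s j σ y' t, nans_eq s j σ y t, ← nrule_congr h1]
    unfold nrule
    by_cases h3 : board s (nans s j σ y) t = j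
    · rw [if_pos h3, if_pos h3]
      refine (hy _ ?_).symm
      have h4 : vis s (nans s j σ y) j (t + 1) ≤ vis s (nans s j σ y) j T :=
        Nat.count_monotone _ (by omega)
      rw [vis_succ_self h3] at h4
      omega
    · rw [if_neg h3, if_neg h3]

open Classical in
/-- The moves of the first player, when the result is `v`. -/
noncomputable def fst (s : List Bool → ℕ × Bool) (j : ℕ) (v : ℕ → Bool) (n : ℕ) : Bool :=
  if board s v n = j then false else v n

theorem fst_congr {s : List Bool → ℕ × Bool} {j : ℕ} {v v' : ℕ → Bool} {t n : ℕ}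
    (h : ∀ i < t, v i = v' i) (hn : n < t) : fst s j v n = fst s j v' n := by
  unfold fst
  rw [board_congr fun i hi => h i (by omega), h n hn]

/-- The histories of the game on the board `j` when the second player follows `τ`. -/
noncomputable def hII (s : List Bool → ℕ × Bool) (j : ℕ) (τ : List Bool → Bool) (v : ℕ → Bool) :
    ℕ → List Bool
  | 0 => []
  | n + 1 => hII s j τ v n ++ [fst s j v n, τ (hII s j τ v n ++ [fst s j v n])]

theorem hII_congr {s : List Bool → ℕ × Bool} {j : ℕ} {τ : List Bool → Bool} {v v' : ℕ → Bool}
    {t : ℕ} (h : ∀ i < t, v i = v' i) : hII s j τ v t = hII s j τ v' t := by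
  induction t with
  | zero => rfl
  | succ t ih => rw [hII, hII, ih fun i hi => h i (by omega), fst_congr h (by omega)]

theorem hist_hII (s : List Bool → ℕ × Bool) (j : ℕ) (τ : List Bool → Bool) (v : ℕ → Bool) (n : ℕ) :
    hist (weave (fst s j v) (fun n => τ (hII s j τ v n ++ [fst s j v n]))) (2 * n) =
      hII s j τ v n := by
  induction n with
  | zero => rfl
  | succ n ih => rw [hist_weave_succ, ih, hII]

/-- Player I can win one of infinitely many boards, and can name it as a function of the whole play,
by a partition into sets of the class `D`. -/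
def NamedI (D : Set (Set (ℕ → Bool))) (A : Set (ℕ → Bool)) : Prop :=
  ∃ (s : List Bool → ℕ × Bool) (K : (ℕ → Bool) → ℕ), (∀ j, {v | K v = j} ∈ D) ∧
    ∀ v : ℕ → Bool, {t | board s v t = K v}.Infinite ∧
      weave (fun m => move s v (visit s v (K v) m)) (fun m => v (visit s v (K v) m)) ∈ A

/-- The same for player II. -/
def NamedII (D : Set (Set (ℕ → Bool))) (A : Set (ℕ → Bool)) : Prop :=
  ∃ (s : List Bool → ℕ × Bool) (K : (ℕ → Bool) → ℕ), (∀ j, {v | K v = j} ∈ D) ∧
    ∀ v : ℕ → Bool, {t | board s v t = K v}.Infinite ∧
      weave (fun m => v (visit s v (K v) m)) (fun m => move s v (visit s v (K v) (m + 1))) ∉ A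

theorem namedI_dual {D : Set (Set (ℕ → Bool))} {A : Set (ℕ → Bool)} :
    NamedI D (dual A) ↔ NamedII D A :=
  exists_congr fun s => exists_congr fun K => and_congr Iff.rfl
    (forall_congr' fun v => and_congr Iff.rfl (mem_dual s v (K v)))

/-- One of the games in which the first player wants the board `j` to be named is won by the first
player, when the naming function has determined fibres. -/
theorem exists_board_won {s : List Bool → ℕ × Bool} {K : (ℕ → Bool) → ℕ}
    (h : ∀ j, WinsI {x | K (mix s j x) = j} ∨ WinsII {x | K (mix s j x) = j}) :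
    ∃ j, WinsI {x | K (mix s j x) = j} := by
  classical
  by_contra hcon
  push Not at hcon
  have h2 : ∀ j, WinsII {x | K (mix s j x) = j} := fun j => (h j).resolve_left (hcon j)
  choose τ hτ using h2
  obtain ⟨v, hv⟩ := exists_seq
    (fun v t => τ (board s v t) (hII s (board s v t) (τ (board s v t)) v t ++ [false]))
    fun v v' t h => by
      simp only [← board_congr h, ← hII_congr h]
  have h3 : ∀ j, K v ≠ j := by
    intro j
    set x := weave (fst s j v) (fun n => τ j (hII s j (τ j) v n ++ [fst s j v n])) with hx
    have h4 : ∀ n, x (2 * n + 1) = τ j (hist x (2 * n + 1)) := by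
      intro n
      have h5 : hist x (2 * n + 1) = hist x (2 * n) ++ [x (2 * n)] := by
        simp [hist, List.range_succ]
      rw [h5, hx, hist_hII, weave_odd, weave_even]
    have h6 : Mixed s j x v := by
      intro t
      by_cases hj : board s v t = j
      · rw [if_pos hj, hx, weave_odd, fst, if_pos hj]
        have h7 := hv t
        rw [hj] at h7
        exact h7
      · rw [if_neg hj, hx, weave_even, fst, if_neg hj]
    have h8 := hτ j x h4
    change ¬ K (mix s j x) = j at h8
    rwa [h6.eq_mix] at h8
  exact h3 _ rfl

/-- **A player who can win one of infinitely many boards, and can name it by a function whose fibres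
are determined, has a winning strategy on one board.** -/
theorem winsI_of_namedI {D : Set (Set (ℕ → Bool))}
    (hD : ∀ B ∈ D, ∀ f : (ℕ → Bool) → ℕ → Bool, Continuous f →
      WinsI (f ⁻¹' B) ∨ WinsII (f ⁻¹' B)) {A : Set (ℕ → Bool)} (h : NamedI D A) : WinsI A := by
  classical
  obtain ⟨s, K, hK, hs⟩ := h
  obtain ⟨j, σ, hσ⟩ := exists_board_won (s := s) (K := K) fun j =>
    hD _ (hK j) (mix s j) (continuous_mix s j)
  refine ⟨fun M => move s (nans s j σ fun n => M.getD n false)
    (visit s (nans s j σ fun n => M.getD n false) j (M.length / 2)), fun y hy => ?_⟩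
  generalize hv : nans s j σ y = v
  have e1 : ∀ t, v t = nrule s j σ y v t := by
    have h1 := nans_eq s j σ y
    rw [hv] at h1
    exact h1
  have hKv : K v = j := by
    set x := weave (fun n => σ (hI s j σ v n)) v with hx
    have h4 : ∀ n, x (2 * n) = σ (hist x (2 * n)) := by
      intro n
      rw [hx, hist_hI, weave_even]
    have h6 : Mixed s j x v := by
      intro t
      by_cases hj : board s v t = j
      · rw [if_pos hj, hx, weave_odd]
      · rw [if_neg hj, hx, weave_even, e1 t, nrule, if_neg hj]
    have h8 := hσ x h4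
    change K (mix s j x) = j at h8
    rwa [h6.eq_mix] at h8
  obtain ⟨hinf, hmem⟩ := hs v
  rw [hKv] at hinf hmem
  have main : ∀ t, posn s v j t = hist y (2 * vis s v j t) := by
    intro t
    induction t with
    | zero => simp [posn, vis, hist]
    | succ t ih =>
      by_cases hk : board s v t = j
      · generalize hm : vis s v j t = m at ih
        have hvt : v t = y (2 * m + 1) := by
          rw [e1 t, nrule, if_pos hk, hm]
        have hmt : move s v t = y (2 * m) := by
          rw [hy m]
          simp only [hist_length]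
          have h2 : 2 * m / 2 = m := by omega
          rw [h2]
          have h3 : ∀ n < 2 * m, y n = (fun n => (hist y (2 * m)).getD n false) n := fun n hn =>
            (hist_getD hn).symm
          have h4 := nans_congr (s := s) (j := j) (σ := σ) (T := t) h3 (by rw [hv, hm])
          rw [hv] at h4
          generalize nans s j σ (fun n => (hist y (2 * m)).getD n false) = v' at h4
          have h5 : ∀ i < t, v i = v' i := fun i hi => (h4 i hi).symm
          have h6 : board s v' t = j := by rw [← board_congr h5, hk]
          have h7 : vis s v' j t = m := by rw [← vis_congr h5, hm]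
          have h8 := visit_of_vis h6
          rw [h7] at h8
          rw [h8]
          exact move_congr h5
        rw [vis_succ_self hk, hm, posn_succ_self hk, ih, hvt, hmt]
        have h9 : 2 * (m + 1) = 2 * m + 1 + 1 := by ring
        rw [h9]
        simp [hist, List.range_succ]
      · rw [posn_succ_other hk, vis_succ_other hk, ih]
  have h1 : onI s v j = y := by
    funext n
    have h3 : vis s v j (visit s v j n + 1) = n + 1 := by
      rw [vis_succ_self (visit_mem hinf n)]
      congr 1
      exact Nat.count_nth_of_infinite hinf n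
    have h5 := main (visit s v j n + 1)
    unfold posn at h5
    have h6 := congrArg (fun L => L.getD n false) h5
    have h4 : n < 2 * vis s v j (visit s v j n + 1) := by omega
    rw [hist_getD h4, hist_getD h4] at h6
    exact h6
  rw [← h1]
  exact hmem

theorem namedI_of_winsI {D : Set (Set (ℕ → Bool))} (h0 : ∅ ∈ D) (h1 : Set.univ ∈ D)
    {A : Set (ℕ → Bool)} (h : WinsI A) : NamedI D A := by
  obtain ⟨s, hs⟩ := exists_zero h
  refine ⟨s, fun _ => 0, fun j => ?_, fun v => ⟨?_, (hs v).2⟩⟩
  · by_cases hj : 0 = j
    · have : {v : ℕ → Bool | (fun _ : ℕ → Bool => 0) v = j} = Set.univ :=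
        Set.eq_univ_of_forall fun v => hj
      rw [this]
      exact h1
    · have : {v : ℕ → Bool | (fun _ : ℕ → Bool => 0) v = j} = ∅ :=
        Set.eq_empty_of_forall_notMem fun v hv => hj hv
      rw [this]
      exact h0
  · have : {t | board s v t = 0} = Set.univ := Set.eq_univ_of_forall fun t => (hs v).1 t
    rw [this]
    exact Set.infinite_univ

/-- A class of determined sets: it contains the empty set and the whole space, and the continuous
preimages of its members are determined. -/
def Good (D : Set (Set (ℕ → Bool))) : Prop :=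
  ∅ ∈ D ∧ Set.univ ∈ D ∧ ∀ B ∈ D, ∀ f : (ℕ → Bool) → ℕ → Bool, Continuous f →
    WinsI (f ⁻¹' B) ∨ WinsII (f ⁻¹' B)

theorem namedI_iff {D : Set (Set (ℕ → Bool))} (hD : Good D) {A : Set (ℕ → Bool)} :
    NamedI D A ↔ WinsI A :=
  ⟨winsI_of_namedI hD.2.2, namedI_of_winsI hD.1 hD.2.1⟩

theorem namedII_iff {D : Set (Set (ℕ → Bool))} (hD : Good D) {A : Set (ℕ → Bool)} :
    NamedII D A ↔ WinsII A := by
  rw [← namedI_dual, namedI_iff hD, winsI_dual]

end Pool.Agent.Q24.BD
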