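import Pool.Agent.Q24.BD.Defs

set_option autoImplicit false

namespace Pool.Agent.Q24.BD

open Pool.Agent.H685R3

/-- A sequence given by its members as a function of the history. -/
theorem exists_rec {α : Type} (f : List α → α) :
    ∃ w : ℕ → α, ∀ t, w t = f ((List.range t).map w) := by
  let g : ℕ → List α := fun n => Nat.rec [] (fun _ L => L ++ [f L]) n
  have hg : ∀ n, (List.range n).map (fun n => f (g n)) = g n := by
    intro n
    induction n with
    | zero => rfl
    | succ n ih =>
      rw [List.range_succ, List.map_append, ih]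
      rfl
  exact ⟨fun n => f (g n), fun q => by rw [hg]⟩

theorem hist_congr {x y : ℕ → Bool} {n : ℕ} (h : ∀ i < n, x i = y i) : hist x n = hist y n := by
  refine List.map_congr_left fun i hi => h i ?_
  simpa using hi

@[simp] theorem hist_length (x : ℕ → Bool) (n : ℕ) : (hist x n).length = n := by simp [hist]

theorem hist_getD {x : ℕ → Bool} {n i : ℕ} (h : i < n) : (hist x n).getD i false = x i := by
  simp [hist, h]

open Classical in
/-- The move number `m` on the board `i` in the record `h` is `b`. -/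
def MoveIs (h : ℕ → Bool) (i m : ℕ) (b : Bool) : Prop :=
  ∃ t, Moves h i t ∧ Nat.count (Moves h i) t = m ∧ h (4 * t + 3) = b

theorem has_iff {h : ℕ → Bool} {i m : ℕ} : Has h i m ↔ ∃ b, MoveIs h i m b :=
  ⟨fun ⟨t, h1, h2⟩ => ⟨_, t, h1, h2, rfl⟩, fun ⟨_, t, h1, h2, _⟩ => ⟨t, h1, h2⟩⟩

theorem MoveIs.tape {h : ℕ → Bool} {i m : ℕ} {b : Bool} (H : MoveIs h i m b) :
    tape h i m = b := by
  classical
  obtain ⟨t, h1, h2, h3⟩ := H
  have h4 : Nat.nth (Moves h i) m = t := by
    rw [← h2]
    exact Nat.nth_count h1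
  rw [BD.tape, h4, h3]

/-- The real which codes `z` and the record given by `w`: at the time `t` there is a move on the
board if `(w t).1`, and the move is `(w t).2`. -/
def mk (z : ℕ → Bool) (w : ℕ → Bool × Bool) (n : ℕ) : Bool :=
  if n % 2 = 0 then z (n / 2) else if n % 4 = 1 then (w (n / 4)).1 else (w (n / 4)).2

theorem mk_z (z : ℕ → Bool) (w : ℕ → Bool × Bool) (n : ℕ) : mk z w (2 * n) = z n := by
  unfold mk
  rw [if_pos (by omega)]
  congr 1
  omega

theorem mk_one (z : ℕ → Bool) (w : ℕ → Bool × Bool) (n : ℕ) : mk z w (4 * n + 1) = (w n).1 := by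
  unfold mk
  rw [if_neg (by omega), if_pos (by omega)]
  have : (4 * n + 1) / 4 = n := by omega
  rw [this]

theorem mk_three (z : ℕ → Bool) (w : ℕ → Bool × Bool) (n : ℕ) :
    mk z w (4 * n + 3) = (w n).2 := by
  unfold mk
  rw [if_neg (by omega), if_neg (by omega)]
  have : (4 * n + 3) / 4 = n := by omega
  rw [this]

theorem mk_congr {z : ℕ → Bool} {w w' : ℕ → Bool × Bool} {T : ℕ} (h : ∀ t < T, w t = w' t)
    (n : ℕ) (hn : n < 4 * T) : mk z w n = mk z w' n := by
  unfold mk
  split_ifs
  · rfl
  · rw [h _ (by omega)]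
  · rw [h _ (by omega)]

theorem moves_mk (z : ℕ → Bool) (w : ℕ → Bool × Bool) (i t : ℕ) :
    Moves (mk z w) i t ↔ t.unpair.1 = i ∧ (w t).1 = true := by
  unfold Moves
  rw [mk_one]

open Classical in
theorem count_congr {h h' : ℕ → Bool} {i T : ℕ} (H : ∀ t < T, Moves h i t ↔ Moves h' i t) :
    Nat.count (Moves h i) T = Nat.count (Moves h' i) T := by
  induction T with
  | zero => simp
  | succ T ih =>
    rw [Nat.count_succ, Nat.count_succ, ih fun t ht => H t (by omega)]
    have h1 := H T (by omega)
    by_cases h2 : Moves h i T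
    · rw [if_pos h2, if_pos (h1.1 h2)]
    · rw [if_neg h2, if_neg fun h3 => h2 (h1.2 h3)]

/-- It is known at the time `t` that the move number `m` on the board `i`, in every record computed
by the program `e`, is `b`. -/
def Avail (z : ℕ → Bool) (e : ℕ → ℕ) (w : ℕ → Bool × Bool) (t i m : ℕ) (b : Bool) : Prop :=
  ∀ w' : ℕ → Bool × Bool, (∀ t' < t, w' t' = w t') → ∀ h, Computes (e i) (mk z w') h →
    MoveIs h i m b

open Classical in
/-- A bit with the property `P`, if there is one. -/
noncomputable def pick (P : Bool → Prop) : Option Bool := if h : ∃ b, P b then some h.choose else none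

theorem pick_some {P : Bool → Prop} {b : Bool} (h : pick P = some b) : P b := by
  unfold pick at h
  split_ifs at h with h1
  · have h2 := h1.choose_spec
    have h3 : h1.choose = b := by simpa using h
    rwa [h3] at h2

theorem pick_isSome {P : Bool → Prop} {b : Bool} (h : P b) : (pick P).isSome = true := by
  unfold pick
  rw [dif_pos ⟨b, h⟩]
  rfl

open Classical in
/-- The next move on the board of the time `t`, if it is known. -/
noncomputable def next (z : ℕ → Bool) (e : ℕ → ℕ) (d : ℕ) (w : ℕ → Bool × Bool) (t : ℕ) :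
    Option Bool :=
  if Nat.count (Moves (mk z w) t.unpair.1) t < d then some false
  else pick fun b => Avail z e w t t.unpair.1 (Nat.count (Moves (mk z w) t.unpair.1) t - d) b

open Classical in
theorem next_eq {z : ℕ → Bool} {e : ℕ → ℕ} {d : ℕ} {w : ℕ → Bool × Bool} {t i c : ℕ}
    (hi : t.unpair.1 = i) (hc : Nat.count (Moves (mk z w) i) t = c) : next z e d w t =
      if c < d then some false else pick fun b => Avail z e w t i (c - d) b := by
  subst hi hc
  rfl

theorem next_congr {z : ℕ → Bool} {e : ℕ → ℕ} {d : ℕ} {w w' : ℕ → Bool × Bool} {t : ℕ}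
    (h : ∀ t' < t, w t' = w' t') : next z e d w t = next z e d w' t := by
  classical
  have h1 : ∀ i m b, Avail z e w t i m b = Avail z e w' t i m b := by
    intro i m b
    refine propext (forall_congr' fun w'' => ?_)
    have : (∀ t' < t, w'' t' = w t') ↔ ∀ t' < t, w'' t' = w' t' :=
      forall_congr' fun t' => forall_congr' fun ht => by rw [h t' ht]
    rw [this]
  have h2 : Nat.count (Moves (mk z w) t.unpair.1) t = Nat.count (Moves (mk z w') t.unpair.1) t := by
    refine count_congr fun t' ht' => ?_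
    rw [moves_mk, moves_mk, h t' ht']
  rw [next_eq rfl h2, next_eq (w := w') rfl rfl]
  simp only [h1]

/-- The record of the moves `v` of the opponent, when all available moves are made. -/
theorem exists_W (z : ℕ → Bool) (e : ℕ → ℕ) (d : ℕ) (v : ℕ → Bool) :
    ∃ w : ℕ → Bool × Bool, ∀ t, w t = ((next z e d w t).isSome, v t) := by
  obtain ⟨w, hw⟩ := exists_rec (α := Bool × Bool) fun L =>
    ((next z e d (fun t => L.getD t (false, false)) L.length).isSome, v L.length)
  refine ⟨w, fun t => ?_⟩
  rw [hw t]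
  simp only [List.length_map, List.length_range]
  rw [next_congr (w' := w)]
  intro t' ht'
  simp [ht']

noncomputable def W (z : ℕ → Bool) (e : ℕ → ℕ) (d : ℕ) (v : ℕ → Bool) : ℕ → Bool × Bool :=
  (exists_W z e d v).choose

theorem W_eq (z : ℕ → Bool) (e : ℕ → ℕ) (d : ℕ) (v : ℕ → Bool) (t : ℕ) :
    W z e d v t = ((next z e d (W z e d v) t).isSome, v t) := (exists_W z e d v).choose_spec t

theorem W_congr {z : ℕ → Bool} {e : ℕ → ℕ} {d : ℕ} {v v' : ℕ → Bool} {T : ℕ}
    (h : ∀ t < T, v t = v' t) : ∀ t < T, W z e d v t = W z e d v' t := by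
  intro t
  induction t using Nat.strong_induction_on with
  | _ t ih =>
    intro ht
    rw [W_eq, W_eq z e d v', h t ht, next_congr (w' := W z e d v') fun t' ht' => ih t' ht'
      (by omega)]

/-- The strategy which makes all available moves (and makes dummy moves on the board `0`). -/
noncomputable def strat (z : ℕ → Bool) (e : ℕ → ℕ) (d : ℕ) (L : List Bool) : ℕ × Bool :=
  match next z e d (W z e d fun n => L.getD n false) L.length with
  | some b => (L.length.unpair.1 + 1, b)
  | none => (0, false)

theorem strat_hist (z : ℕ → Bool) (e : ℕ → ℕ) (d : ℕ) (v : ℕ → Bool) (t : ℕ) :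
    strat z e d (hist v t) = match next z e d (W z e d v) t with
      | some b => (t.unpair.1 + 1, b)
      | none => (0, false) := by
  unfold strat
  rw [hist_length, next_congr (w' := W z e d v)]
  exact W_congr fun t' ht' => hist_getD ht'

/-- The record is `mk z (W z e d v)`. -/
noncomputable def R (z : ℕ → Bool) (e : ℕ → ℕ) (d : ℕ) (v : ℕ → Bool) : ℕ → Bool :=
  mk z (W z e d v)

theorem moves_R (z : ℕ → Bool) (e : ℕ → ℕ) (d : ℕ) (v : ℕ → Bool) (i t : ℕ) :
    Moves (R z e d v) i t ↔ t.unpair.1 = i ∧ (next z e d (W z e d v) t).isSome = true := by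
  unfold R
  rw [moves_mk, W_eq]

theorem R_three (z : ℕ → Bool) (e : ℕ → ℕ) (d : ℕ) (v : ℕ → Bool) (t : ℕ) :
    R z e d v (4 * t + 3) = v t := by
  unfold R
  rw [mk_three, W_eq]

theorem board_iff (z : ℕ → Bool) (e : ℕ → ℕ) (d : ℕ) (v : ℕ → Bool) (i t : ℕ) :
    board (strat z e d) v t = i + 1 ↔ Moves (R z e d v) i t := by
  rw [moves_R, board, strat_hist]
  cases h : next z e d (W z e d v) t with
  | none => simp
  | some b => simp

theorem visit_eq (z : ℕ → Bool) (e : ℕ → ℕ) (d : ℕ) (v : ℕ → Bool) (i m : ℕ) :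
    visit (strat z e d) v (i + 1) m = Nat.nth (Moves (R z e d v) i) m := by
  unfold visit
  congr 1
  funext t
  exact propext (board_iff z e d v i t)

/-- Continuity of computations. -/
theorem continuity {z : ℕ → Bool} {w : ℕ → Bool × Bool} {c i m : ℕ} {h : ℕ → Bool} {b : Bool}
    (hc : Computes c (mk z w) h) (hb : MoveIs h i m b) :
    ∃ T, ∀ w' : ℕ → Bool × Bool, (∀ t < T, w' t = w t) → ∀ h', Computes c (mk z w') h' →
      MoveIs h' i m b := by
  classical
  obtain ⟨t₀, h1, h2, h3⟩ := hb
  have h4 : ∀ n, ∃ k, ((Denumerable.ofNat Nat.Partrec.Code c).eval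
      (Encodable.encode (hist (mk z w) k, n, h n))).Dom := fun n => (hc n (h n)).1 rfl
  choose k hk using h4
  refine ⟨(Finset.range (4 * t₀ + 4)).sup k + 1, fun w' hw' h' hc' => ?_⟩
  have h5 : ∀ n < 4 * t₀ + 4, h' n = h n := by
    intro n hn
    refine (hc' n (h n)).2 ⟨k n, ?_⟩
    have h6 : k n ≤ (Finset.range (4 * t₀ + 4)).sup k := Finset.le_sup (f := k) (by simpa using hn)
    rw [hist_congr (y := mk z w) fun j hj => mk_congr hw' j (by omega)]
    exact hk n
  have h6 : ∀ t ≤ t₀, Moves h' i t ↔ Moves h i t := by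
    intro t ht
    unfold Moves
    rw [h5 _ (by omega)]
  refine ⟨t₀, (h6 t₀ le_rfl).2 h1, ?_, ?_⟩
  · rw [← h2]
    exact count_congr fun t ht => h6 t (by omega)
  · rw [h5 _ (by omega), h3]

/-- Every move known to the program is made. -/
theorem progress {z : ℕ → Bool} {e : ℕ → ℕ} {d : ℕ} {v : ℕ → Bool} {i m : ℕ} {h : ℕ → Bool}
    (hc : Computes (e i) (R z e d v) h) (hlt : ∀ j < m, Has (R z e d v) i j)
    (hm : m < d ∨ Has h i (m - d)) : Has (R z e d v) i m := by
  classical
  by_contra hno
  have h1 : ∃ T, ∀ t, T ≤ t → Nat.count (Moves (R z e d v) i) t = m := by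
    have h2 : ∃ T, m ≤ Nat.count (Moves (R z e d v) i) T := by
      rcases Nat.eq_zero_or_pos m with h3 | h3
      · exact ⟨0, by omega⟩
      · obtain ⟨t, h4, h5⟩ := hlt (m - 1) (by omega)
        refine ⟨t + 1, ?_⟩
        rw [Nat.count_succ, if_pos h4, h5]
        omega
    obtain ⟨T, hT⟩ := h2
    refine ⟨T, fun t ht => ?_⟩
    induction t, ht using Nat.le_induction with
    | base =>
      by_contra h4
      have h5 : m < Nat.count (Moves (R z e d v) i) T := by omega
      have h6 : Moves (R z e d v) i (Nat.nth (Moves (R z e d v) i) m) := by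
        refine Nat.nth_mem m fun hf => ?_
        exact lt_of_lt_of_le h5 (Nat.count_le_card hf T)
      refine hno ⟨_, h6, ?_⟩
      refine Nat.count_nth fun hf => ?_
      exact lt_of_lt_of_le h5 (Nat.count_le_card hf T)
    | succ t _ ih =>
      rw [Nat.count_succ, ih, if_neg, add_zero]
      intro h4
      exact hno ⟨t, h4, ih⟩
  obtain ⟨T, hT⟩ := h1
  have h2 : ∃ T', ∀ j, T' ≤ j → (next z e d (W z e d v) (Nat.pair i j)).isSome = true := by
    by_cases hd : m < d
    · refine ⟨T, fun j hj => ?_⟩
      have h3 : T ≤ Nat.pair i j := hj.trans (Nat.right_le_pair i j)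
      have h4 : Nat.count (Moves (mk z (W z e d v)) i) (Nat.pair i j) = m := hT _ h3
      rw [next_eq (by simp) h4, if_pos hd]
      rfl
    · have h3 : Has h i (m - d) := hm.resolve_left hd
      obtain ⟨b, hb⟩ := has_iff.1 h3
      obtain ⟨T', hT'⟩ := continuity hc hb
      refine ⟨max T T', fun j hj => ?_⟩
      have h4 : max T T' ≤ Nat.pair i j := hj.trans (Nat.right_le_pair i j)
      have h5 : Nat.count (Moves (mk z (W z e d v)) i) (Nat.pair i j) = m :=
        hT _ ((le_max_left _ _).trans h4)
      rw [next_eq (by simp) h5, if_neg hd]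
      exact pick_isSome (b := b) fun w' hw' h' hc' => hT' w' (fun t ht => hw' t
          (lt_of_lt_of_le ht ((le_max_right _ _).trans h4))) h' hc'
  obtain ⟨T', hT'⟩ := h2
  have h3 : Moves (R z e d v) i (Nat.pair i (max T T')) := by
    rw [moves_R]
    exact ⟨by simp, hT' _ (le_max_right _ _)⟩
  exact hno ⟨_, h3, hT _ ((le_max_left _ _).trans (Nat.right_le_pair _ _))⟩

/-- The moves made on a board are the moves in the record computed by the program. -/
theorem move_eq {z : ℕ → Bool} {e : ℕ → ℕ} {d : ℕ} {v : ℕ → Bool} {i m : ℕ} {h : ℕ → Bool}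
    (hc : Computes (e i) (R z e d v) h) (hinf : {t | Moves (R z e d v) i t}.Infinite) :
    move (strat z e d) v (visit (strat z e d) v (i + 1) (m + d)) = tape h i m := by
  classical
  rw [visit_eq]
  generalize ht : Nat.nth (Moves (R z e d v) i) (m + d) = t
  have h1 : Moves (R z e d v) i t := by
    rw [← ht]
    exact Nat.nth_mem_of_infinite hinf _
  have h2 : Nat.count (Moves (R z e d v) i) t = m + d := by
    rw [← ht]
    exact Nat.count_nth_of_infinite hinf _
  have h3 := (moves_R z e d v i t).1 h1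
  rw [move, strat_hist]
  cases h4 : next z e d (W z e d v) t with
  | none => rw [h4] at h3; simp at h3
  | some b =>
    simp only
    have h5 : Nat.count (Moves (mk z (W z e d v)) i) t = m + d := h2
    rw [next_eq h3.1 h5, if_neg (by omega), Nat.add_sub_cancel] at h4
    exact (pick_some h4 (W z e d v) (fun _ _ => rfl) h hc).tape.symm

theorem tape_R {z : ℕ → Bool} {e : ℕ → ℕ} {d : ℕ} {v : ℕ → Bool} {i m : ℕ} :
    tape (R z e d v) i m = v (visit (strat z e d) v (i + 1) m) := by
  rw [tape, R_three, visit_eq]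

theorem infinite_of_has {p : ℕ → Bool} {i : ℕ} (h : ∀ m, Has p i m) :
    {t | Moves p i t}.Infinite := by
  classical
  intro hf
  obtain ⟨t, h1, h2⟩ := h hf.toFinset.card
  have h3 : Nat.count (Moves p i) (t + 1) ≤ hf.toFinset.card := Nat.count_le_card hf (t + 1)
  rw [Nat.count_succ, if_pos h1, h2] at h3
  exact absurd h3 (Nat.not_succ_le_self _)

end Pool.Agent.Q24.BD
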