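import Pool.Agent.Q24.BD.Rec
import Pool.Agent.H685R3.Game

set_option autoImplicit false

namespace Pool.Agent.Q24.BD

open Pool.Agent.H685R3 Pool.Agent.Helper227

theorem SameDegree.symm {x y : ℕ → Bool} (h : SameDegree x y) : SameDegree y x := ⟨h.2, h.1⟩

theorem SameDegree.trans {x y z : ℕ → Bool} (h : SameDegree x y) (h' : SameDegree y z) :
    SameDegree x z := ⟨TuringReducible.trans h.1 h'.1, TuringReducible.trans h'.2 h.2⟩

theorem SameDegree.refl (x : ℕ → Bool) : SameDegree x x :=
  ⟨TuringReducible.refl _, TuringReducible.refl _⟩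

theorem computes_of_tLe {p q : ℕ → Bool} (h : TLe q p) : ∃ e, Computes e p q := by
  obtain ⟨E, hE, -, eE⟩ := tLe_iff_SI.1 h
  obtain ⟨c, hc⟩ := Nat.Partrec.Code.exists_code.1 hE.re
  refine ⟨Encodable.encode c, fun n b => ?_⟩
  rw [Denumerable.ofNat_encode]
  have h1 : ∀ a, (c.eval (Encodable.encode a)).Dom ↔ E a := by
    intro a
    rw [hc]
    simp [Part.assert]
  refine (eE (n, b)).trans (exists_congr fun k => ?_)
  exact (h1 _).symm

theorem exists_link {p q : ℕ → Bool} (h : SameDegree p q) : ∃ i, Link i p q := by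
  obtain ⟨a, ha⟩ := computes_of_tLe h.2
  obtain ⟨b, hb⟩ := computes_of_tLe h.1
  exact ⟨Nat.pair a b, by simpa using ha, by simpa using hb⟩

theorem star_invariant (A : Set (ℕ → Bool)) : TuringInvariant (star A) := by
  rintro x y h1 h2 ⟨p, hp, hp'⟩
  have hxy : SameDegree x y := ⟨h1, h2⟩
  exact ⟨p, hp.trans hxy, fun q hq i hi => hp' q (hq.trans hxy.symm) i hi⟩

theorem tLe_R (z : ℕ → Bool) (e : ℕ → ℕ) (d : ℕ) (v : ℕ → Bool) : TLe z (R z e d v) :=
  tLe_of_positions (b := 0) fun n => by
    rw [R, Nat.add_zero]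
    exact mk_z z _ n

theorem boardsI_of_star {A : Set (ℕ → Bool)} (h : WinsI (star A)) : BoardsI A := by
  obtain ⟨z, hz⟩ := cone_of_wins (b := 0) (by norm_num) (star_invariant A) h
  refine ⟨strat z (fun i => i.unpair.2) 0, fun v => ?_⟩
  obtain ⟨p, hp, hp'⟩ := hz _ (tLe_R z (fun i => i.unpair.2) 0 v)
  obtain ⟨i, hi⟩ := exists_link hp
  have hL := hp' _ (SameDegree.refl _) i hi
  have hall : ∀ m, Has p i m ∧ Has (R z (fun i => i.unpair.2) 0 v) i m := by
    intro m
    induction m using Nat.strong_induction_on with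
    | _ m ih =>
      have h1 : Has p i m := by
        by_contra h2
        exact hL (Or.inl ⟨m, h2, ih⟩)
      exact ⟨h1, progress hi.2 (fun j hj => (ih j hj).2) (Or.inr h1)⟩
  have hinf := infinite_of_has fun m => (hall m).2
  refine ⟨i + 1, ?_, ?_⟩
  · refine hinf.mono fun t ht => ?_
    exact (board_iff z _ 0 v i t).2 ht
  · have e1 : (fun m => move (strat z (fun i => i.unpair.2) 0) v
        (visit (strat z (fun i => i.unpair.2) 0) v (i + 1) m)) = tape p i := by
      funext m
      exact move_eq (d := 0) hi.2 hinf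
    have e2 : (fun m => v (visit (strat z (fun i => i.unpair.2) 0) v (i + 1) m)) =
        tape (R z (fun i => i.unpair.2) 0 v) i := by
      funext m
      exact tape_R.symm
    rw [e1, e2]
    by_contra h2
    exact hL (Or.inr ⟨hall, h2⟩)

theorem boardsII_of_star {A : Set (ℕ → Bool)} (h : WinsII (star A)) : BoardsII A := by
  have hinv : TuringInvariant (star A)ᶜ := fun x y h1 h2 hx hy =>
    hx (star_invariant A y x h2 h1 hy)
  obtain ⟨z, hz⟩ := cone_of_wins (b := 1) (by norm_num) hinv (winsII_iff.1 h)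
  refine ⟨strat z (fun i => i.unpair.1) 1, fun v => ?_⟩
  have h1 := hz _ (tLe_R z (fun i => i.unpair.1) 1 v)
  have h2 : ∃ q, ∃ i, Link i (R z (fun i => i.unpair.1) 1 v) q ∧
      Loses A (R z (fun i => i.unpair.1) 1 v) q i := by
    by_contra h3
    push Not at h3
    exact h1 ⟨_, SameDegree.refl _, fun q _ i hi => h3 q i hi⟩
  obtain ⟨q, i, hi, hL⟩ := h2
  rcases hL with ⟨m, hm, hlt⟩ | ⟨hall, hA⟩
  · refine absurd (progress hi.1 (fun j hj => (hlt j hj).1) ?_) hm
    rcases Nat.eq_zero_or_pos m with h3 | h3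
    · exact Or.inl (by omega)
    · exact Or.inr (hlt (m - 1) (by omega)).2
  · have hinf := infinite_of_has fun m => (hall m).1
    refine ⟨i + 1, ?_, ?_⟩
    · refine hinf.mono fun t ht => ?_
      exact (board_iff z _ 1 v i t).2 ht
    · have e1 : (fun m => move (strat z (fun i => i.unpair.1) 1) v
          (visit (strat z (fun i => i.unpair.1) 1) v (i + 1) (m + 1))) = tape q i := by
        funext m
        exact move_eq (d := 1) hi.1 hinf
      have e2 : (fun m => v (visit (strat z (fun i => i.unpair.1) 1) v (i + 1) m)) =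
          tape (R z (fun i => i.unpair.1) 1 v) i := by
        funext m
        exact tape_R.symm
      rw [e1, e2]
      exact hA

end Pool.Agent.Q24.BD
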